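import Pool.Agent.H12.GN.Hcn

/-! # [H12 GN CNT] Counting the exponents for two comparable uniformizers

All comparisons with the valuation of `V`. `A₁` large (`A₁ = A`). There is a least `A₂` with `p₂^(A₂)/p₁^A ∈ V` (`p₂^(C A)/p₁^A = (p₂^C/p₁)^A ∈ V`; `Nat.find`). `A₂ ≥ 1` for `A ≥ 1`. `A ≤ C A₂`: `p₁^(C A₂)/p₂^(A₂) ∈ V`, so `p₁^(C A₂)/p₁^A ∈ V`, and `p₁` is a nonunit (`C ≥ 1` for the same reason). So for given `R` we may take `A ≥ R` and
`A₂ ≥ R`. `X = p₁^A p₂^(A₂)`. `N a b`: `p₁^a p₂^b/X ∈ V.nonunits`; `U a b`: `p₁^a p₂^b/X` and its inverse are in `V`. If neither `N a b` nor `U a b` then the valuation is `> 1`, that of the inverse `p₁^(2A-a) p₂^(2A₂-b)/X` is `< 1` (`a ≤ 2A`, `b ≤ 2A₂`). `U a b`, `U a' b`, `a < a'`: `p₁^(a'-a)` is a unit, contradiction. `hcn` (with `B = A₂`):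
the set `Γ'` of the `(a,b)` in the box `a ≤ 2A`, `b ≤ 2A₂` with `¬ N a b` has at most `(A+1)(2A₂+1)` elements.
Outside: `b ≥ 2A₂+1`: `p₂^b/X = p₂^(b-2A₂) (p₂^(A₂)/p₁^A) ∈ V.nonunits`, so `N a b` (`p₁^a ∈ V`). `a ≥ 2A+C+1`: `p₂^(A₂-1)/p₁^A ∉ V`, so `p₁^A/p₂^(A₂-1) ∈ V`; `p₁^a/X = p₁^(a-2A-C) (p₁^A/p₂^(A₂-1)) (p₁^C/p₂) ∈ V.nonunits`. So
`Γ = Γ' ∪ ([2A+1, 2A+C] × [0,2A₂])` has at most `(A+1+C)(2A₂+1)` elements; this is `< 3 (A-c)(A₂-c)` for `A, A₂ ≥ R` large: `3AA₂ - 3c(A+A₂) > 2AA₂ + A + 2(C+1)A₂ + C + 1` if `A, A₂ ≥ 6c + 4C + 20`. -/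

namespace Pool.Agent.H12.GN

open Finset Classical

private theorem cnt_num (A B c C : ℕ) (hA : 6 * c + 4 * C + 20 ≤ A) (hB : 6 * c + 4 * C + 20 ≤ B) :
    (A + 1) * (2 * B + 1) + C * (2 * B + 1) < 3 * ((A - c) * (B - c)) := by
  obtain ⟨s, rfl⟩ : ∃ s, A = c + s := ⟨A - c, by omega⟩
  obtain ⟨t, rfl⟩ : ∃ t, B = c + t := ⟨B - c, by omega⟩
  rw [Nat.add_sub_cancel_left, Nat.add_sub_cancel_left]
  have hs : 5 * c + 4 * C + 20 ≤ s := by omega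
  have ht : 5 * c + 4 * C + 20 ≤ t := by omega
  have h1 : s * (5 * c + 4 * C + 20) ≤ s * t := Nat.mul_le_mul_left _ ht
  have h2 : (5 * c + 4 * C + 20) * t ≤ s * t := Nat.mul_le_mul_right _ hs
  have h3 : (5 * c + 4 * C + 20) * (c + 4 * C + 18) ≤ s * (c + 4 * C + 18) :=
    Nat.mul_le_mul_right _ hs
  nlinarith [Nat.zero_le (c * C), Nat.zero_le (c * t), Nat.zero_le (c * c), Nat.zero_le (C * C),
    Nat.zero_le (C * t), Nat.zero_le (s * C), Nat.zero_le (s * c)]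

private theorem cnt_grp {G : Type} [LinearOrderedCommGroupWithZero G] {x y : G} (hx0 : 0 < x) (hy0 : 0 < y)
    (hx : x < 1) (hy : y < 1) {C : ℕ} (hxy : x ^ C ≤ y) (hyx : y ^ C ≤ x) (c : ℕ) :
    ∃ (A₁ A₂ : ℕ) (Γ : Finset (ℕ × ℕ)), Γ.card < 3 * ((A₁ - c) * (A₂ - c)) ∧
      ∀ a b, (a, b) ∉ Γ → x ^ a * y ^ b < x ^ A₁ * y ^ A₂ := by
  have hC : 1 ≤ C := by
    rcases Nat.eq_zero_or_pos C with h | h
    · rw [h, pow_zero] at hxy
      exact absurd hy (not_lt.2 hxy)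
    · exact h
  have hxp : ∀ n : ℕ, 0 < x ^ n := fun n => pow_pos hx0 n
  have hyp : ∀ n : ℕ, 0 < y ^ n := fun n => pow_pos hy0 n
  have hxl : ∀ m n : ℕ, m < n → x ^ n < x ^ m := fun m n h => pow_lt_pow_right_of_lt_one₀ hx0 hx h
  have hyl : ∀ m n : ℕ, m < n → y ^ n < y ^ m := fun m n h => pow_lt_pow_right_of_lt_one₀ hy0 hy h
  obtain ⟨R, hR⟩ : ∃ R : ℕ, R = 6 * c + 4 * C + 20 := ⟨_, rfl⟩
  obtain ⟨A, hA⟩ : ∃ A : ℕ, A = C * R := ⟨_, rfl⟩
  have hAR : R ≤ A := by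
    rw [hA]
    exact Nat.le_mul_of_pos_left R hC
  have hex : ∃ n : ℕ, y ^ n ≤ x ^ A := ⟨C * A, by
    rw [pow_mul]
    exact pow_le_pow_left₀ (hyp C).le hyx A⟩
  obtain ⟨B, hB1, hB2⟩ : ∃ B : ℕ, y ^ B ≤ x ^ A ∧ ∀ m < B, x ^ A < y ^ m :=
    ⟨Nat.find hex, Nat.find_spec hex, fun m hm => not_le.1 (Nat.find_min hex hm)⟩
  have hAB : A ≤ C * B := by
    by_contra hlt
    have h1 := hxl _ _ (not_le.1 hlt)
    have h2 : x ^ (C * B) ≤ y ^ B := by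
      rw [pow_mul]
      exact pow_le_pow_left₀ (hxp C).le hxy B
    exact absurd (h2.trans hB1) (not_le.2 h1)
  have hBR : R ≤ B := by
    rw [hA] at hAB
    exact Nat.le_of_mul_le_mul_left hAB hC
  have hB0 : 1 ≤ B := by omega
  obtain ⟨X, hX⟩ : ∃ X : G, X = x ^ A * y ^ B := ⟨_, rfl⟩
  have hX0 : 0 < X := by
    rw [hX]
    exact mul_pos (hxp A) (hyp B)
  have hcard := hcn A B (fun a b => x ^ a * y ^ b < X) (fun a b => x ^ a * y ^ b = X) ?_ ?_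
  rotate_left
  · intro a ha b hb
    rcases lt_trichotomy (x ^ a * y ^ b) X with h | h | h
    · exact Or.inl h
    · exact Or.inr (Or.inl h)
    · refine Or.inr (Or.inr ?_)
      have h1 : (x ^ (2 * A - a) * y ^ (2 * B - b)) * (x ^ a * y ^ b) = X * X := by
        rw [hX, mul_mul_mul_comm, ← pow_add, ← pow_add, Nat.sub_add_cancel ha, Nat.sub_add_cancel hb,
          mul_mul_mul_comm, ← pow_add, ← pow_add, two_mul, two_mul]
      by_contra h2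
      have h3 : X ≤ x ^ (2 * A - a) * y ^ (2 * B - b) := not_lt.1 h2
      have h4 : X * X < (x ^ (2 * A - a) * y ^ (2 * B - b)) * (x ^ a * y ^ b) :=
        calc X * X < X * (x ^ a * y ^ b) := (mul_lt_mul_iff_right₀ hX0).2 h
          _ ≤ _ := mul_le_mul_left h3 _
      rw [h1] at h4
      exact lt_irrefl _ h4
  · intro a a' b h h'
    have h1 : x ^ a = x ^ a' := by
      have h2 : x ^ a * y ^ b = x ^ a' * y ^ b := h.trans h'.symm
      exact mul_right_cancel₀ (hyp b).ne' h2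
    rcases lt_trichotomy a a' with h2 | h2 | h2
    · exact absurd h1.symm (hxl _ _ h2).ne
    · exact h2
    · exact absurd h1 (hxl _ _ h2).ne
  refine ⟨A, B, ((range (2 * A + 1) ×ˢ range (2 * B + 1)).filter
    (fun p => ¬ x ^ p.1 * y ^ p.2 < X)) ∪ (Icc (2 * A + 1) (2 * A + C) ×ˢ range (2 * B + 1)), ?_, ?_⟩
  · refine (Finset.card_union_le _ _).trans_lt ?_
    have h1 : (Icc (2 * A + 1) (2 * A + C) ×ˢ range (2 * B + 1)).card = C * (2 * B + 1) := by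
      rw [Finset.card_product, Nat.card_Icc, Finset.card_range]
      congr 1
      omega
    rw [h1]
    refine (Nat.add_le_add_right ?_ _).trans_lt (cnt_num A B c C (hR ▸ hAR) (hR ▸ hBR))
    convert hcard
  · intro a b hab
    rw [← hX]
    rw [Finset.mem_union, not_or] at hab
    have hx1 : ∀ n : ℕ, x ^ n ≤ 1 := fun n => pow_le_one₀ hx0.le hx.le
    have hy1 : ∀ n : ℕ, y ^ n ≤ 1 := fun n => pow_le_one₀ hy0.le hy.le
    rcases Nat.lt_or_ge (2 * B) b with hb | hb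
    · calc x ^ a * y ^ b ≤ 1 * y ^ b := mul_le_mul_left (hx1 a) _
        _ = y ^ b := one_mul _
        _ < y ^ (2 * B) := hyl _ _ hb
        _ = y ^ B * y ^ B := by rw [two_mul, pow_add]
        _ ≤ x ^ A * y ^ B := mul_le_mul_left hB1 _
        _ = X := hX.symm
    · rcases Nat.lt_or_ge (2 * A) a with ha | ha
      · have ha2 : 2 * A + C < a := by
          by_contra h
          apply hab.2
          rw [Finset.mem_product, Finset.mem_Icc, Finset.mem_range]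
          exact ⟨⟨ha, not_lt.1 h⟩, Nat.lt_succ_of_le hb⟩
        have h1 : x ^ A ≤ y ^ (B - 1) := (hB2 (B - 1) (by omega)).le
        calc x ^ a * y ^ b ≤ x ^ a * 1 := mul_le_mul_right (hy1 b) _
          _ = x ^ a := mul_one _
          _ < x ^ (2 * A + C) := hxl _ _ ha2
          _ = x ^ A * (x ^ A * x ^ C) := by
              rw [two_mul, pow_add, pow_add, mul_assoc]
          _ ≤ x ^ A * (y ^ (B - 1) * y) :=
              mul_le_mul_right (mul_le_mul' h1 hxy) _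
          _ = X := by rw [← pow_succ, Nat.sub_add_cancel hB0, hX]
      · by_contra h
        apply hab.1
        rw [Finset.mem_filter, Finset.mem_product, Finset.mem_range, Finset.mem_range]
        exact ⟨⟨Nat.lt_succ_of_le ha, Nat.lt_succ_of_le hb⟩, h⟩

theorem cnt {Λ : Type} [Field Λ] {V : ValuationSubring Λ} {p₁ p₂ : Λ} (h1 : p₁ ≠ 0) (h2 : p₂ ≠ 0)
    (n1 : p₁ ∈ V.nonunits) (n2 : p₂ ∈ V.nonunits) {C : ℕ} (h12 : p₁ ^ C / p₂ ∈ V) (h21 : p₂ ^ C / p₁ ∈ V)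
    (c : ℕ) : ∃ (A₁ A₂ : ℕ) (Γ : Finset (ℕ × ℕ)), Γ.card < 3 * ((A₁ - c) * (A₂ - c)) ∧
      ∀ a b, (a, b) ∉ Γ → p₁ ^ a * p₂ ^ b / (p₁ ^ A₁ * p₂ ^ A₂) ∈ V.nonunits := by
  have hx0 : 0 < V.valuation p₁ := (Valuation.pos_iff _).2 h1
  have hy0 : 0 < V.valuation p₂ := (Valuation.pos_iff _).2 h2
  rw [ValuationSubring.mem_nonunits_iff] at n1 n2
  rw [← ValuationSubring.valuation_le_one_iff, map_div₀, map_pow, div_le_one₀ hy0] at h12
  rw [← ValuationSubring.valuation_le_one_iff, map_div₀, map_pow, div_le_one₀ hx0] at h21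
  obtain ⟨A₁, A₂, Γ, hΓ, h⟩ := cnt_grp hx0 hy0 n1 n2 h12 h21 c
  refine ⟨A₁, A₂, Γ, hΓ, fun a b hab => ?_⟩
  have h3 := h a b hab
  rw [ValuationSubring.mem_nonunits_iff, map_div₀, map_mul, map_mul, map_pow, map_pow, map_pow, map_pow,
    div_lt_one₀ (mul_pos (pow_pos hx0 _) (pow_pos hy0 _))]
  exact h3

end Pool.Agent.H12.GN
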