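import Pool.Agent.H12.ON.Vrs
import Pool.Agent.H82.NS.Int

/-! # [H12 GN DPA] Comparable uniformizers; small elements with a denominator are zero

* `cmu`: `p₂^(e₂ C)/p₁ = (p₂^(e₂) x₂)^C (x₁/x₂^C) (x₁⁻¹/p₁^(e₁)) p₁^(e₁ - 1) ∈ V`.
* `sml_zero`: `Z = ∑∑ σ u v q₁ u q₂ v`, `σ u v ∈ Q0 H`, `q_j` integral over `(Q0 H)[U_j]`, `U_j ∈ ZS`, `Z ∈ (V0 H).nonunits`. `int_small` (H82/NS/Int) for all `q₁ u`, `q₂ v`, and `exists_den`/`int_small` for the constants `σ u v` (they are in `(Q0 H)[U₁]`): the product `δ` of all these denominators is in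
  `Q0 H`, not zero, `δ Z ∈ ZS`. `evz` with `v0_non` (ON/Vrs): `Z = 0`. -/

namespace Pool.Agent.H12.GN

open Pool.Agent.H12.ON Pool.Agent.H82.NS Finset

theorem cmu {Λ : Type} [Field Λ] {V : ValuationSubring Λ} {p₁ p₂ x₁ x₂ : Λ} {e₁ e₂ C : ℕ} (he : 1 ≤ e₁)
    (h1 : p₁ ≠ 0) (h2 : x₁ ≠ 0) (h3 : x₂ ≠ 0) (hp : p₁ ∈ V) (a1 : x₁⁻¹ / p₁ ^ e₁ ∈ V)
    (b2 : p₂ ^ e₂ * x₂ ∈ V) (h : x₁ / x₂ ^ C ∈ V) : p₂ ^ (e₂ * C) / p₁ ∈ V := by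
  obtain ⟨e, rfl⟩ : ∃ e, e₁ = e + 1 := ⟨e₁ - 1, by omega⟩
  have h4 : p₂ ^ (e₂ * C) / p₁ = (p₂ ^ e₂ * x₂) ^ C * (x₁ / x₂ ^ C) * (x₁⁻¹ / p₁ ^ (e + 1)) * p₁ ^ e := by
    rw [mul_pow, ← pow_mul]
    field_simp
    ring
  rw [h4]
  exact mul_mem (mul_mem (mul_mem (pow_mem b2 C) h) a1) (pow_mem hp e)

private theorem dp_com {ι : Type} [Fintype ι] (H : ℕ → ℕ) (f : ι → QS)
    (h : ∀ i, ∃ δ : QS, δ ∈ Q0 H ∧ δ ∈ ZS ∧ δ ≠ 0 ∧ δ * f i ∈ ZS) :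
    ∃ δ : QS, δ ∈ Q0 H ∧ δ ≠ 0 ∧ ∀ i, δ * f i ∈ ZS := by
  classical
  choose d hd1 hd2 hd3 hd4 using h
  refine ⟨∏ i, d i, (Q0 H).prod_mem fun i _ => hd1 i, Finset.prod_ne_zero_iff.mpr fun i _ => hd3 i, fun i => ?_⟩
  have h1 : (∏ i, d i) * f i = (∏ j ∈ Finset.univ.erase i, d j) * (d i * f i) := by
    rw [← Finset.mul_prod_erase _ _ (Finset.mem_univ i)]
    ring
  rw [h1]
  exact ZS.mul_mem (ZS.prod_mem fun j _ => hd2 j) (hd4 i)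

theorem sml_zero (H : ℕ → ℕ) {U₁ U₂ : QS} (z1 : U₁ ∈ ZS) (z2 : U₂ ∈ ZS) {m₁ m₂ : ℕ} {q₁ : Fin m₁ → QS}
    {q₂ : Fin m₂ → QS} (h1 : ∀ u, IsIntegral (Algebra.adjoin (Q0 H) {U₁}) (q₁ u))
    (h2 : ∀ v, IsIntegral (Algebra.adjoin (Q0 H) {U₂}) (q₂ v)) {σ : Fin m₁ → Fin m₂ → Q0 H}
    (h : ∑ u, ∑ v, algebraMap (Q0 H) QS (σ u v) * q₁ u * q₂ v ∈ (V0 H).nonunits) :
    ∑ u, ∑ v, algebraMap (Q0 H) QS (σ u v) * q₁ u * q₂ v = 0 := by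
  obtain ⟨d1, a1, b1, c1⟩ := dp_com H q₁ fun u => int_small H U₁ _ z1 (h1 u)
  obtain ⟨d2, a2, b2, c2⟩ := dp_com H q₂ fun v => int_small H U₂ _ z2 (h2 v)
  obtain ⟨d3, a3, b3, c3⟩ := dp_com H (fun p : Fin m₁ × Fin m₂ => algebraMap (Q0 H) QS (σ p.1 p.2)) fun p =>
    exists_den H U₁ _ z1 (Subalgebra.algebraMap_mem _ _)
  refine evz H (δ := d3 * d1 * d2) ((Q0 H).mul_mem ((Q0 H).mul_mem a3 a1) a2) (mul_ne_zero (mul_ne_zero b3 b1) b2) ?_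
    ((v0_non H _).1 h)
  rw [Finset.mul_sum]
  refine ZS.sum_mem fun u _ => ?_
  rw [Finset.mul_sum]
  refine ZS.sum_mem fun v _ => ?_
  have h3 : d3 * d1 * d2 * (algebraMap (Q0 H) QS (σ u v) * q₁ u * q₂ v) =
      (d3 * algebraMap (Q0 H) QS (σ u v)) * (d1 * q₁ u) * (d2 * q₂ v) := by ring
  rw [h3]
  exact ZS.mul_mem (ZS.mul_mem (c3 (u, v)) (c1 u)) (c2 v)

end Pool.Agent.H12.GN
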