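import Pool.Agent.H12.ON.Def

/-! # [H12 GN SML] The small lemma: a sum of products whose main coefficients vanish modulo `P` is small

Let `J = {y | y/X ∈ V.nonunits}`: closed under sums and under multiplication by elements of `V` (`V.nonunits` is, `ValuationSubring`: `v(y/X) < 1`). All of the following is modulo `J`. `X₁ c_u = E_u + ε_u`, `E_u = ∑_i ∑_{a<M₁} B₁(γ₁) z_i p₁^a ∈ V`, `ε_u ∈ J`; `X₂ d_v = E'_v + ε'_v`, `E'_v ∈ V`, `ε'_v ∈ J`;
so `X c_u d_v = E_u E'_v + E_u ε'_v + ε_u (E'_v + ε'_v)`; `ε'_v ∈ V` (`ε'_v = X (ε'_v/X)` and `X ∈ V`: `hXV`), so it is `≡ E_u E'_v`. `A(γ₂) - A(γ₁) ∈ (γ₂ - γ₁) V ⊆ J` for `A ∈ k[T]`, so `E'_v ≡ ∑ B₂(γ₁) w_j p₂^b`. Sum with the coefficients `σ u v ∈ k`: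
`X S ≡ ∑_{a<M₁,b<M₂,i,j} (∑_{u,v} σ u v B₁(u,i,a) B₂(v,j,b))(γ₁) z_i w_j p₁^a p₂^b`. If `(a,b) ∈ Γ` the polynomial is divisible by `P` and `P(γ₁) ∈ J`; if not, `p₁^a p₂^b ∈ J` (`hΓ`). So `X S ∈ J`, `S ∈ V.nonunits`. -/

namespace Pool.Agent.H12.GN

open Pool.Agent.H12.ON Finset

private theorem nu_add {Λ : Type} [Field Λ] {V : ValuationSubring Λ} {a b : Λ} (ha : a ∈ V.nonunits)
    (hb : b ∈ V.nonunits) : a + b ∈ V.nonunits := by
  rw [ValuationSubring.mem_nonunits_iff] at ha hb ⊢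
  exact V.valuation.map_add_lt ha hb

private theorem nu_zero {Λ : Type} [Field Λ] {V : ValuationSubring Λ} : (0 : Λ) ∈ V.nonunits := by
  rw [ValuationSubring.mem_nonunits_iff, map_zero]
  exact zero_lt_one

private theorem nu_mul {Λ : Type} [Field Λ] {V : ValuationSubring Λ} {a b : Λ} (ha : a ∈ V)
    (hb : b ∈ V.nonunits) : a * b ∈ V.nonunits := by
  rw [ValuationSubring.mem_nonunits_iff] at hb ⊢
  rw [map_mul]
  exact (mul_le_of_le_one_left' ((V.valuation_le_one_iff a).2 ha)).trans_lt hb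

private theorem sm_add {Λ : Type} [Field Λ] {V : ValuationSubring Λ} {X a b : Λ} (ha : a / X ∈ V.nonunits)
    (hb : b / X ∈ V.nonunits) : (a + b) / X ∈ V.nonunits := by
  rw [add_div]
  exact nu_add ha hb

private theorem sm_mul {Λ : Type} [Field Λ] {V : ValuationSubring Λ} {X a b : Λ} (ha : a ∈ V)
    (hb : b / X ∈ V.nonunits) : (a * b) / X ∈ V.nonunits := by
  rw [mul_div_assoc]
  exact nu_mul ha hb

private theorem sm_sum {Λ ι : Type} [Field Λ] {V : ValuationSubring Λ} {X : Λ} (s : Finset ι) (f : ι → Λ)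
    (hf : ∀ i ∈ s, f i / X ∈ V.nonunits) : (∑ i ∈ s, f i) / X ∈ V.nonunits := by
  classical
  induction s using Finset.induction_on with
  | empty =>
    rw [Finset.sum_empty, zero_div]
    exact nu_zero
  | insert a s ha ih =>
    rw [Finset.sum_insert ha]
    exact sm_add (hf a (Finset.mem_insert_self a s)) (ih fun i hi => hf i (Finset.mem_insert_of_mem hi))

private theorem ae_mem {k Λ : Type} [Field k] [Field Λ] [Algebra k Λ] {V : ValuationSubring Λ} (hV : Ov k V)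
    {γ : Λ} (hγ : γ ∈ V) (A : Polynomial k) : Polynomial.aeval γ A ∈ V := by
  rw [Polynomial.aeval_eq_sum_range]
  refine sum_mem fun i _ => ?_
  rw [Algebra.smul_def]
  exact V.mul_mem _ _ (hV _) (pow_mem hγ i)

private theorem ae_sub {k Λ : Type} [Field k] [Field Λ] [Algebra k Λ] {V : ValuationSubring Λ} (hV : Ov k V)
    {γ₁ γ₂ : Λ} (h1 : γ₁ ∈ V) (h2 : γ₂ ∈ V) (A : Polynomial k) :
    ∃ t ∈ V, Polynomial.aeval γ₂ A - Polynomial.aeval γ₁ A = t * (γ₁ - γ₂) := by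
  induction A using Polynomial.induction_on' with
  | add p q hp hq =>
    obtain ⟨t, ht, hp⟩ := hp
    obtain ⟨s, hs, hq⟩ := hq
    refine ⟨t + s, V.add_mem _ _ ht hs, ?_⟩
    rw [map_add, map_add]
    linear_combination hp + hq
  | monomial n a =>
    obtain ⟨c, hc⟩ : ∃ c ∈ V, γ₂ ^ n - γ₁ ^ n = c * (γ₁ - γ₂) := by
      induction n with
      | zero => exact ⟨0, V.zero_mem, by simp⟩
      | succ n ih =>
        obtain ⟨c, hc, hc'⟩ := ih
        refine ⟨c * γ₂ - γ₁ ^ n, sub_mem (V.mul_mem _ _ hc h2) (pow_mem h1 n), ?_⟩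
        rw [pow_succ, pow_succ]
        linear_combination γ₂ * hc'
    refine ⟨algebraMap k Λ a * c, V.mul_mem _ _ (hV a) hc.1, ?_⟩
    rw [Polynomial.aeval_monomial, Polynomial.aeval_monomial]
    linear_combination algebraMap k Λ a * hc.2

private theorem swp {Λ α β : Type} [AddCommMonoid Λ] (p : Finset α) (s : Finset β) (r t : Finset ℕ) {γ : Type}
    (q : Finset γ) (f : α → β → ℕ → γ → ℕ → Λ) :
    ∑ e ∈ p, ∑ i ∈ s, ∑ a ∈ r, ∑ j ∈ q, ∑ b ∈ t, f e i a j b =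
      ∑ i ∈ s, ∑ a ∈ r, ∑ j ∈ q, ∑ b ∈ t, ∑ e ∈ p, f e i a j b := by
  rw [Finset.sum_comm]
  refine Finset.sum_congr rfl fun i _ => ?_
  rw [Finset.sum_comm]
  refine Finset.sum_congr rfl fun a _ => ?_
  rw [Finset.sum_comm]
  refine Finset.sum_congr rfl fun j _ => ?_
  rw [Finset.sum_comm]

theorem sml {k Λ : Type} [Field k] [Field Λ] [Algebra k Λ] {V : ValuationSubring Λ} (hV : Ov k V)
    {P : Polynomial k} {γ₁ γ₂ X X₁ X₂ p₁ p₂ : Λ} (hX : X ≠ 0) (hXX : X = X₁ * X₂) (hXV : X ∈ V)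
    (hγ₁ : γ₁ ∈ V) (hγ₂ : γ₂ ∈ V) (hp₁ : p₁ ∈ V) (hp₂ : p₂ ∈ V) (hγ : (γ₁ - γ₂) / X ∈ V.nonunits)
    (hP : Polynomial.aeval γ₁ P / X ∈ V.nonunits) {s₁ s₂ : ℕ} {z : Fin s₁ → Λ} {w : Fin s₂ → Λ}
    (hz : ∀ i, z i ∈ V) (hw : ∀ i, w i ∈ V) {m₁ m₂ M₁ M₂ : ℕ} {c : Fin m₁ → Λ} {d : Fin m₂ → Λ}
    {B₁ : Fin m₁ → Fin s₁ → ℕ → Polynomial k} {B₂ : Fin m₂ → Fin s₂ → ℕ → Polynomial k}
    (hc : ∀ u, (X₁ * c u - ∑ i, ∑ a ∈ range M₁, Polynomial.aeval γ₁ (B₁ u i a) * z i * p₁ ^ a) / X ∈ V.nonunits)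
    (hd : ∀ v, (X₂ * d v - ∑ j, ∑ b ∈ range M₂, Polynomial.aeval γ₂ (B₂ v j b) * w j * p₂ ^ b) / X ∈ V.nonunits)
    {Γ : Finset (ℕ × ℕ)} (hΓ : ∀ a b, (a, b) ∉ Γ → p₁ ^ a * p₂ ^ b / X ∈ V.nonunits)
    {σ : Fin m₁ → Fin m₂ → k} (hσ : ∀ ab ∈ Γ, ∀ i j,
      P ∣ ∑ u, ∑ v, Polynomial.C (σ u v) * (B₁ u i ab.1 * B₂ v j ab.2)) :
    ∑ u, ∑ v, algebraMap k Λ (σ u v) * c u * d v ∈ V.nonunits := by
  -- the main parts
  obtain ⟨E, hE⟩ : ∃ E : Fin m₁ → Λ, ∀ u, E u = ∑ i, ∑ a ∈ range M₁, Polynomial.aeval γ₁ (B₁ u i a) * z i * p₁ ^ a :=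
    ⟨_, fun u => rfl⟩
  obtain ⟨F, hF⟩ : ∃ F : Fin m₂ → Λ, ∀ v, F v = ∑ j, ∑ b ∈ range M₂, Polynomial.aeval γ₁ (B₂ v j b) * w j * p₂ ^ b :=
    ⟨_, fun u => rfl⟩
  have hEV : ∀ u, E u ∈ V := by
    intro u
    rw [hE]
    exact sum_mem fun i _ => sum_mem fun a _ =>
      V.mul_mem _ _ (V.mul_mem _ _ (ae_mem hV hγ₁ _) (hz i)) (pow_mem hp₁ a)
  have hFV : ∀ v, F v ∈ V := by
    intro v
    rw [hF]
    exact sum_mem fun j _ => sum_mem fun b _ =>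
      V.mul_mem _ _ (V.mul_mem _ _ (ae_mem hV hγ₁ _) (hw j)) (pow_mem hp₂ b)
  have hcE : ∀ u, (X₁ * c u - E u) / X ∈ V.nonunits := by
    intro u
    rw [hE]
    exact hc u
  have hdF : ∀ v, (X₂ * d v - F v) / X ∈ V.nonunits := by
    intro v
    have h1 : X₂ * d v - F v =
        (X₂ * d v - ∑ j, ∑ b ∈ range M₂, Polynomial.aeval γ₂ (B₂ v j b) * w j * p₂ ^ b) +
        ∑ j, ∑ b ∈ range M₂, (w j * p₂ ^ b) * (Polynomial.aeval γ₂ (B₂ v j b) - Polynomial.aeval γ₁ (B₂ v j b)) := by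
      have h2 : ∑ j, ∑ b ∈ range M₂, (w j * p₂ ^ b) * (Polynomial.aeval γ₂ (B₂ v j b) -
          Polynomial.aeval γ₁ (B₂ v j b)) =
          (∑ j, ∑ b ∈ range M₂, Polynomial.aeval γ₂ (B₂ v j b) * w j * p₂ ^ b) - F v := by
        rw [hF, ← Finset.sum_sub_distrib]
        refine Finset.sum_congr rfl fun j _ => ?_
        rw [← Finset.sum_sub_distrib]
        refine Finset.sum_congr rfl fun b _ => ?_
        ring
      rw [h2]
      ring
    rw [h1]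
    refine sm_add (hd v) (sm_sum _ _ fun j _ => sm_sum _ _ fun b _ => ?_)
    obtain ⟨t, ht, h3⟩ := ae_sub hV hγ₁ hγ₂ (B₂ v j b)
    rw [h3, ← mul_assoc]
    exact sm_mul (V.mul_mem _ _ (V.mul_mem _ _ (hw j) (pow_mem hp₂ b)) ht) hγ
  have hXd : ∀ v, X₂ * d v ∈ V := by
    intro v
    have h1 : X₂ * d v = X * ((X₂ * d v - F v) / X) + F v := by
      rw [mul_div_cancel₀ _ hX]
      ring
    rw [h1]
    exact V.add_mem _ _ (V.mul_mem _ _ hXV (V.nonunits_subset (hdF v))) (hFV v)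
  -- the main sum
  have hmain : (∑ u, ∑ v, algebraMap k Λ (σ u v) * (E u * F v)) / X ∈ V.nonunits := by
    have h1 : ∑ u, ∑ v, algebraMap k Λ (σ u v) * (E u * F v) =
        ∑ i, ∑ a ∈ range M₁, ∑ j, ∑ b ∈ range M₂, ∑ e ∈ (univ : Finset (Fin m₁)) ×ˢ (univ : Finset (Fin m₂)),
          algebraMap k Λ (σ e.1 e.2) * (Polynomial.aeval γ₁ (B₁ e.1 i a * B₂ e.2 j b)) *
            (z i * w j * (p₁ ^ a * p₂ ^ b)) := by
      rw [← swp, Finset.sum_product]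
      refine Finset.sum_congr rfl fun u _ => Finset.sum_congr rfl fun v _ => ?_
      rw [hE, hF, Finset.sum_mul, Finset.mul_sum]
      refine Finset.sum_congr rfl fun i _ => ?_
      rw [Finset.sum_mul, Finset.mul_sum]
      refine Finset.sum_congr rfl fun a _ => ?_
      rw [Finset.mul_sum, Finset.mul_sum]
      refine Finset.sum_congr rfl fun j _ => ?_
      rw [Finset.mul_sum, Finset.mul_sum]
      refine Finset.sum_congr rfl fun b _ => ?_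
      rw [map_mul]
      ring
    rw [h1]
    refine sm_sum _ _ fun i _ => sm_sum _ _ fun a _ => sm_sum _ _ fun j _ => sm_sum _ _ fun b _ => ?_
    rw [← Finset.sum_mul]
    have h2 : ∑ e ∈ (univ : Finset (Fin m₁)) ×ˢ (univ : Finset (Fin m₂)),
          algebraMap k Λ (σ e.1 e.2) * (Polynomial.aeval γ₁ (B₁ e.1 i a * B₂ e.2 j b)) =
        Polynomial.aeval γ₁ (∑ u, ∑ v, Polynomial.C (σ u v) * (B₁ u i a * B₂ v j b)) := by
      rw [map_sum, Finset.sum_product]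
      refine Finset.sum_congr rfl fun u _ => ?_
      rw [map_sum]
      refine Finset.sum_congr rfl fun v _ => ?_
      simp only [map_mul, Polynomial.aeval_C]
    rw [h2]
    by_cases hab : (a, b) ∈ Γ
    · obtain ⟨R, hR⟩ := hσ (a, b) hab i j
      have hR' : ∑ u, ∑ v, Polynomial.C (σ u v) * (B₁ u i a * B₂ v j b) = P * R := hR
      rw [hR', map_mul]
      have h3 : Polynomial.aeval γ₁ P * Polynomial.aeval γ₁ R * (z i * w j * (p₁ ^ a * p₂ ^ b)) =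
          (Polynomial.aeval γ₁ R * (z i * w j * (p₁ ^ a * p₂ ^ b))) * Polynomial.aeval γ₁ P := by ring
      rw [h3]
      exact sm_mul (V.mul_mem _ _ (ae_mem hV hγ₁ _) (V.mul_mem _ _ (V.mul_mem _ _ (hz i) (hw j))
        (V.mul_mem _ _ (pow_mem hp₁ a) (pow_mem hp₂ b)))) hP
    · rw [← mul_assoc]
      exact sm_mul (V.mul_mem _ _ (ae_mem hV hγ₁ _) (V.mul_mem _ _ (hz i) (hw j))) (hΓ a b hab)
  have hXS : X * (∑ u, ∑ v, algebraMap k Λ (σ u v) * c u * d v) =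
      (∑ u, ∑ v, algebraMap k Λ (σ u v) * (E u * F v)) +
      ((∑ u, ∑ v, (algebraMap k Λ (σ u v) * E u) * (X₂ * d v - F v)) +
        ∑ u, ∑ v, (algebraMap k Λ (σ u v) * (X₂ * d v)) * (X₁ * c u - E u)) := by
    rw [Finset.mul_sum, ← Finset.sum_add_distrib, ← Finset.sum_add_distrib]
    refine Finset.sum_congr rfl fun u _ => ?_
    rw [Finset.mul_sum, ← Finset.sum_add_distrib, ← Finset.sum_add_distrib]
    refine Finset.sum_congr rfl fun v _ => ?_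
    rw [hXX]
    ring
  have hfin : (X * (∑ u, ∑ v, algebraMap k Λ (σ u v) * c u * d v)) / X ∈ V.nonunits := by
    rw [hXS]
    refine sm_add hmain (sm_add ?_ ?_)
    · exact sm_sum _ _ fun u _ => sm_sum _ _ fun v _ => sm_mul (V.mul_mem _ _ (hV _) (hEV u)) (hdF v)
    · exact sm_sum _ _ fun u _ => sm_sum _ _ fun v _ => sm_mul (V.mul_mem _ _ (hV _) (hXd v)) (hcE u)
  rwa [mul_div_cancel_left₀ _ hX] at hfin

end Pool.Agent.H12.GN
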