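import Pool.Agent.H12.ON.Def

/-! # [H12 GN TWO] Two approximate zeros with the same residue are close

`P` is separable: `U P + W P' = 1` in `k[T]` (`Irreducible.separable`, characteristic zero). `U(γ₁), W(γ₁) ∈ V`, `P(γ₁) ∈ V.nonunits`, so `P'(γ₁)` is a unit of `V`. `Polynomial.binomExpansion`: `P(γ₂) = P(γ₁) + P'(γ₁) (γ₂ - γ₁) + c (γ₂ - γ₁)^2` with `c ∈ V` (apply it in the ring `V`, for
`P` mapped to `V[T]` by `k → V`; see `nwt` in H85/LK/Nwt.lean). So `(γ₂ - γ₁) (P'(γ₁) + c (γ₂ - γ₁)) = P(γ₂) - P(γ₁) ∈ Y V`, and the second factor is a unit of `V`. -/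

namespace Pool.Agent.H12.GN

open Pool.Agent.H12.ON

theorem two {k Λ : Type} [Field k] [CharZero k] [Field Λ] [Algebra k Λ] {V : ValuationSubring Λ} (hV : Ov k V)
    {P : Polynomial k} (hP : Irreducible P) {γ₁ γ₂ Y : Λ} (hY : Y ≠ 0) (hγ₁ : γ₁ ∈ V) (hγ₂ : γ₂ ∈ V)
    (h : γ₁ - γ₂ ∈ V.nonunits) (h0 : Polynomial.aeval γ₁ P ∈ V.nonunits)
    (h1 : Polynomial.aeval γ₁ P / Y ∈ V) (h2 : Polynomial.aeval γ₂ P / Y ∈ V) : (γ₁ - γ₂) / Y ∈ V := by
  have hιex : ∃ ι : k →+* V, ∀ c, ((ι c : V) : Λ) = algebraMap k Λ c :=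
    ⟨(algebraMap k Λ).codRestrict V.toSubring hV, fun c => rfl⟩
  obtain ⟨ι, hι⟩ := hιex
  have hev : ∀ G : V, ((Polynomial.eval G (P.map ι) : V) : Λ) = Polynomial.aeval (G : Λ) P := by
    intro G
    rw [Polynomial.eval_map, Polynomial.aeval_def]
    have h1 := Polynomial.hom_eval₂ P ι V.subtype G
    have h2 : V.subtype.comp ι = algebraMap k Λ := RingHom.ext fun c => hι c
    rw [h2] at h1
    exact h1
  have hm : ∀ a : V, a ∈ IsLocalRing.maximalIdeal V ↔ (a : Λ) ∈ V.nonunits := fun a =>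
    (ValuationSubring.coe_mem_nonunits_iff (A := V)).symm
  obtain ⟨G₁, hG₁⟩ : ∃ G₁ : V, (G₁ : Λ) = γ₁ := ⟨⟨γ₁, hγ₁⟩, rfl⟩
  obtain ⟨G₂, hG₂⟩ : ∃ G₂ : V, (G₂ : Λ) = γ₂ := ⟨⟨γ₂, hγ₂⟩, rfl⟩
  have hsep : (P.map ι).Separable := hP.separable.map
  have h3 : (P.map ι).eval G₁ ∈ IsLocalRing.maximalIdeal V := by
    rw [hm, hev, hG₁]
    exact h0
  have h4 : G₂ - G₁ ∈ IsLocalRing.maximalIdeal V := by
    have h5 : G₁ - G₂ ∈ IsLocalRing.maximalIdeal V := by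
      rw [hm]
      show (G₁ : Λ) - G₂ ∈ V.nonunits
      rw [hG₁, hG₂]
      exact h
    have h6 := (IsLocalRing.maximalIdeal V).neg_mem h5
    rwa [neg_sub] at h6
  obtain ⟨c, hc⟩ := (P.map ι).binomExpansion G₁ (G₂ - G₁)
  obtain ⟨A, B, hAB⟩ := hsep
  have h5 := congrArg (Polynomial.eval G₁) hAB
  rw [Polynomial.eval_add, Polynomial.eval_mul, Polynomial.eval_mul, Polynomial.eval_one] at h5
  have h6 : IsUnit ((Polynomial.derivative (P.map ι)).eval G₁ + c * (G₂ - G₁)) := by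
    by_contra hcon
    have h7 : (Polynomial.derivative (P.map ι)).eval G₁ + c * (G₂ - G₁) ∈ IsLocalRing.maximalIdeal V := hcon
    have h8 : (Polynomial.derivative (P.map ι)).eval G₁ ∈ IsLocalRing.maximalIdeal V := by
      have h9 := Ideal.sub_mem _ h7 (Ideal.mul_mem_left _ c h4)
      rwa [add_sub_cancel_right] at h9
    have h9 : (1 : V) ∈ IsLocalRing.maximalIdeal V := by
      rw [← h5]
      exact Ideal.add_mem _ (Ideal.mul_mem_left _ _ h3) (Ideal.mul_mem_left _ _ h8)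
    exact h9 isUnit_one
  obtain ⟨u, hu⟩ := h6.exists_right_inv
  have h7 : G₁ - G₂ = ((P.map ι).eval G₁ - (P.map ι).eval G₂) * u := by
    have h8 : (P.map ι).eval G₂ = (P.map ι).eval G₁ +
        (Polynomial.derivative (P.map ι)).eval G₁ * (G₂ - G₁) + c * (G₂ - G₁) ^ 2 := by
      have h9 : G₁ + (G₂ - G₁) = G₂ := by ring
      rw [h9] at hc
      exact hc
    rw [h8]
    linear_combination (-(G₁ - G₂)) * hu
  have h8 : γ₁ - γ₂ = (Polynomial.aeval γ₁ P - Polynomial.aeval γ₂ P) * (u : Λ) := by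
    have h9 := congrArg (fun z : V => (z : Λ)) h7
    have h10 : (G₁ : Λ) - (G₂ : Λ) = ((((P.map ι).eval G₁ : V) : Λ) - (((P.map ι).eval G₂ : V) : Λ)) * (u : Λ) := h9
    rw [hev, hev, hG₁, hG₂] at h10
    exact h10
  have h9 : (γ₁ - γ₂) / Y = (Polynomial.aeval γ₁ P / Y - Polynomial.aeval γ₂ P / Y) * (u : Λ) := by
    rw [h8]
    field_simp
  rw [h9]
  exact V.mul_mem _ _ (sub_mem h1 h2) u.2

end Pool.Agent.H12.GN
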