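import Pool.Agent.H12.GN.Pls
import Pool.Agent.H12.GN.Sml
import Pool.Agent.H12.GN.Two

/-! # [H12 GN EXX] The small lemma for two embedded function fields

`Pls.exx`: `exp M` gives `g'`; `B u`, `r u` from the expansion of `π^A q_u ∈ O`.
`szv`: apply `sml` with `γ_j = l_j g_j'`, `p_j = l_j π_j`, `X_j = p_j^(A_j)`, `X = X₁ X₂`, `z i := l₁ (z₁ i)`, `w := l₂ (z₂ i)`, `c u = l₁ (q₁ u)`, `d v = l₂ (q₂ v)` (`l (aeval g A) = aeval (l g) A`). `X ≠ 0`, `X ∈ V`. `hc`: `X₁ c_u - ∑ … = l₁(r_u) p₁^(M₁)`, `hM₁`. `(γ₁ - γ₂)/X ∈ V.nonunits`: `γ₁ - γ₂ ∈ V.nonunits`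
(`γ_j - l_j g_j`, `l₁ g₁ - l₂ g₂`). `V` is a valuation ring: `p₁^(M₁)/p₂^(M₂) ∈ V` or its inverse. In the first case let `Y = p₂^(M₂)`: `P(γ₁)/Y`, `P(γ₂)/Y ∈ V`; `two`: `(γ₁ - γ₂)/Y ∈ V`, and `Y/X ∈ V.nonunits` (`hM₂`). The second case is the same with `Y = p₁^(M₁)`.
`P(γ₁) ∈ V.nonunits` and `P(γ₁)/X ∈ V.nonunits`: `P(γ₁) = (P(γ₁)/p₁^(M₁)) (p₁^(M₁)/X) X`, `X ∈ V`. -/

namespace Pool.Agent.H12.GN

open Pool.Agent.H12.ON Pool.Agent.H12.OG Pool.Agent.H82.NS Finset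

/-- expansions of the functions `π^A q u` with `M` terms -/
structure Exx (k : Type) {L : Type} [Field k] [Field L] [Algebra k L] (O : ValuationSubring L)
    (P : Polynomial k) (g π : L) {s : ℕ} (z : Fin s → L) (A M : ℕ) {m : ℕ} (q : Fin m → L) (g' : L)
    (B : Fin m → Fin s → ℕ → Polynomial k) : Prop where
  mem : g' ∈ O
  near : g' - g ∈ O.nonunits
  zero : Polynomial.aeval g' P / π ^ M ∈ O
  zO : ∀ i, z i ∈ O
  π0 : π ≠ 0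
  πO : π ∈ O
  exp : ∀ u, ∃ r ∈ O, π ^ A * q u =
    (∑ i, ∑ j ∈ range M, Polynomial.aeval g' (B u i j) * z i * π ^ j) + r * π ^ M

private theorem xnu_add {Λ : Type} [Field Λ] {V : ValuationSubring Λ} {a b : Λ} (ha : a ∈ V.nonunits)
    (hb : b ∈ V.nonunits) : a + b ∈ V.nonunits := by
  rw [ValuationSubring.mem_nonunits_iff] at ha hb ⊢
  exact V.valuation.map_add_lt ha hb

private theorem xnu_neg {Λ : Type} [Field Λ] {V : ValuationSubring Λ} {a : Λ} (ha : a ∈ V.nonunits) :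
    -a ∈ V.nonunits := by
  rw [ValuationSubring.mem_nonunits_iff] at ha ⊢
  rwa [Valuation.map_neg]

private theorem xnu_mul {Λ : Type} [Field Λ] {V : ValuationSubring Λ} {a b : Λ} (ha : a ∈ V)
    (hb : b ∈ V.nonunits) : a * b ∈ V.nonunits := by
  rw [ValuationSubring.mem_nonunits_iff] at hb ⊢
  rw [map_mul]
  exact (mul_le_of_le_one_left' ((V.valuation_le_one_iff a).2 ha)).trans_lt hb

theorem Pls.exx {k L : Type} [Field k] [Field L] [Algebra k L] {x : L} {O : ValuationSubring L}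
    {P : Polynomial k} {g π : L} {e s : ℕ} {z : Fin s → L} {c : ℕ} (h : Pls k x O P g π e s z c) (A M : ℕ)
    {m : ℕ} {q : Fin m → L} (hq : ∀ i, π ^ A * q i ∈ O) : ∃ g' B, Exx k O P g π z A M q g' B := by
  obtain ⟨g', hg', h1, h2, h3⟩ := h.exp M
  choose B r hr hB using fun i => h3 _ (hq i)
  exact ⟨g', B, hg', h1, h2, h.zO, h.π0, O.nonunits_subset h.πm, fun u => ⟨r u, hr u, hB u⟩⟩

/-- the remainder of the expansion, in `Λ` -/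
private theorem rem {k L Λ : Type} [Field k] [Field L] [Field Λ] [Algebra k L] [Algebra k Λ] (l : L →ₐ[k] Λ)
    {O : ValuationSubring L} {V : ValuationSubring Λ} (h1 : ∀ z ∈ O, l z ∈ V) {P : Polynomial k} {g π g' : L}
    {s A M m : ℕ} {z : Fin s → L} {q : Fin m → L} {B : Fin m → Fin s → ℕ → Polynomial k}
    (e : Exx k O P g π z A M q g' B) {X : Λ} (hM : l π ^ M / X ∈ V.nonunits) (u : Fin m) :
    (l π ^ A * l (q u) - ∑ i, ∑ a ∈ range M, Polynomial.aeval (l g') (B u i a) * l (z i) * l π ^ a) / X ∈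
      V.nonunits := by
  obtain ⟨r, hr, h2⟩ := e.exp u
  have h3 := congrArg l h2
  rw [map_mul, map_pow, map_add, map_sum, map_mul, map_pow] at h3
  have h4 : ∑ i, l (∑ j ∈ range M, Polynomial.aeval g' (B u i j) * z i * π ^ j) =
      ∑ i, ∑ a ∈ range M, Polynomial.aeval (l g') (B u i a) * l (z i) * l π ^ a := by
    refine Finset.sum_congr rfl fun i _ => ?_
    rw [map_sum]
    refine Finset.sum_congr rfl fun a _ => ?_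
    rw [map_mul, map_mul, map_pow, Polynomial.aeval_algHom_apply]
  rw [h4] at h3
  rw [h3, add_sub_cancel_left, mul_div_assoc]
  exact xnu_mul (h1 _ hr) hM

theorem szv {k L₁ L₂ Λ : Type} [Field k] [CharZero k] [Field L₁] [Field L₂] [Field Λ] [Algebra k L₁]
    [Algebra k L₂] [Algebra k Λ] (l₁ : L₁ →ₐ[k] Λ) (l₂ : L₂ →ₐ[k] Λ) {O₁ : ValuationSubring L₁}
    {O₂ : ValuationSubring L₂} {V : ValuationSubring Λ} (hV : Ov k V) (h1 : ∀ z ∈ O₁, l₁ z ∈ V)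
    (h2 : ∀ z ∈ O₂, l₂ z ∈ V) (n1 : ∀ z ∈ O₁.nonunits, l₁ z ∈ V.nonunits)
    (n2 : ∀ z ∈ O₂.nonunits, l₂ z ∈ V.nonunits) {P : Polynomial k} (hP : Irreducible P) {g₁ π₁ g₁' : L₁}
    {g₂ π₂ g₂' : L₂} (hg : l₁ g₁ - l₂ g₂ ∈ V.nonunits) {s₁ s₂ A₁ A₂ M₁ M₂ m₁ m₂ : ℕ} {z₁ : Fin s₁ → L₁}
    {z₂ : Fin s₂ → L₂} {q₁ : Fin m₁ → L₁} {q₂ : Fin m₂ → L₂} {B₁ : Fin m₁ → Fin s₁ → ℕ → Polynomial k}
    {B₂ : Fin m₂ → Fin s₂ → ℕ → Polynomial k} (e1 : Exx k O₁ P g₁ π₁ z₁ A₁ M₁ q₁ g₁' B₁)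
    (e2 : Exx k O₂ P g₂ π₂ z₂ A₂ M₂ q₂ g₂' B₂)
    (hM₁ : l₁ π₁ ^ M₁ / (l₁ π₁ ^ A₁ * l₂ π₂ ^ A₂) ∈ V.nonunits)
    (hM₂ : l₂ π₂ ^ M₂ / (l₁ π₁ ^ A₁ * l₂ π₂ ^ A₂) ∈ V.nonunits) {Γ : Finset (ℕ × ℕ)}
    (hΓ : ∀ a b, (a, b) ∉ Γ → l₁ π₁ ^ a * l₂ π₂ ^ b / (l₁ π₁ ^ A₁ * l₂ π₂ ^ A₂) ∈ V.nonunits)
    {σ : Fin m₁ → Fin m₂ → k} (hσ : ∀ ab ∈ Γ, ∀ i j,
      P ∣ ∑ u, ∑ v, Polynomial.C (σ u v) * (B₁ u i ab.1 * B₂ v j ab.2)) :
    ∑ u, ∑ v, algebraMap k Λ (σ u v) * l₁ (q₁ u) * l₂ (q₂ v) ∈ V.nonunits := by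
  obtain ⟨p₁, hp₁⟩ : ∃ p₁, p₁ = l₁ π₁ := ⟨_, rfl⟩
  obtain ⟨p₂, hp₂⟩ : ∃ p₂, p₂ = l₂ π₂ := ⟨_, rfl⟩
  have hp₁0 : p₁ ≠ 0 := by
    rw [hp₁]
    exact (map_ne_zero l₁).2 e1.π0
  have hp₂0 : p₂ ≠ 0 := by
    rw [hp₂]
    exact (map_ne_zero l₂).2 e2.π0
  have hp₁V : p₁ ∈ V := by
    rw [hp₁]
    exact h1 _ e1.πO
  have hp₂V : p₂ ∈ V := by
    rw [hp₂]
    exact h2 _ e2.πO
  obtain ⟨X, hX⟩ : ∃ X, X = p₁ ^ A₁ * p₂ ^ A₂ := ⟨_, rfl⟩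
  have hX0 : X ≠ 0 := by
    rw [hX]
    exact mul_ne_zero (pow_ne_zero _ hp₁0) (pow_ne_zero _ hp₂0)
  have hXV : X ∈ V := by
    rw [hX]
    exact V.mul_mem _ _ (pow_mem hp₁V _) (pow_mem hp₂V _)
  rw [← hp₁, ← hp₂, ← hX] at hM₁ hM₂
  have hΓ' : ∀ a b, (a, b) ∉ Γ → p₁ ^ a * p₂ ^ b / X ∈ V.nonunits := by
    intro a b hab
    rw [hX, hp₁, hp₂]
    exact hΓ a b hab
  -- the residues
  have hP1 : Polynomial.aeval (l₁ g₁') P / p₁ ^ M₁ ∈ V := by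
    have h3 := h1 _ e1.zero
    rw [map_div₀, map_pow, ← Polynomial.aeval_algHom_apply, ← hp₁] at h3
    exact h3
  have hP2 : Polynomial.aeval (l₂ g₂') P / p₂ ^ M₂ ∈ V := by
    have h3 := h2 _ e2.zero
    rw [map_div₀, map_pow, ← Polynomial.aeval_algHom_apply, ← hp₂] at h3
    exact h3
  have hPX : Polynomial.aeval (l₁ g₁') P / X ∈ V.nonunits := by
    have h3 : Polynomial.aeval (l₁ g₁') P / X = (Polynomial.aeval (l₁ g₁') P / p₁ ^ M₁) * (p₁ ^ M₁ / X) := by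
      have := pow_ne_zero M₁ hp₁0
      field_simp
    rw [h3]
    exact xnu_mul hP1 hM₁
  have hPn : Polynomial.aeval (l₁ g₁') P ∈ V.nonunits := by
    have h3 : Polynomial.aeval (l₁ g₁') P = X * (Polynomial.aeval (l₁ g₁') P / X) := by
      field_simp
    rw [h3]
    exact xnu_mul hXV hPX
  have hnear : l₁ g₁' - l₂ g₂' ∈ V.nonunits := by
    have h3 : l₁ g₁' - l₂ g₂' = l₁ (g₁' - g₁) + ((l₁ g₁ - l₂ g₂) + -(l₂ (g₂' - g₂))) := by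
      rw [map_sub, map_sub]
      ring
    rw [h3]
    exact xnu_add (n1 _ e1.near) (xnu_add hg (xnu_neg (n2 _ e2.near)))
  have hγ : (l₁ g₁' - l₂ g₂') / X ∈ V.nonunits := by
    rcases V.mem_or_inv_mem (p₁ ^ M₁ / p₂ ^ M₂) with hc | hc
    · have hY : p₂ ^ M₂ ≠ 0 := pow_ne_zero _ hp₂0
      have h3 : Polynomial.aeval (l₁ g₁') P / p₂ ^ M₂ ∈ V := by
        have h4 : Polynomial.aeval (l₁ g₁') P / p₂ ^ M₂ =
            (Polynomial.aeval (l₁ g₁') P / p₁ ^ M₁) * (p₁ ^ M₁ / p₂ ^ M₂) := by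
          have := pow_ne_zero M₁ hp₁0
          field_simp
        rw [h4]
        exact V.mul_mem _ _ hP1 hc
      have h4 := two hV hP hY (h1 _ e1.mem) (h2 _ e2.mem) hnear hPn h3 hP2
      have h5 : (l₁ g₁' - l₂ g₂') / X = ((l₁ g₁' - l₂ g₂') / p₂ ^ M₂) * (p₂ ^ M₂ / X) := by
        field_simp
      rw [h5]
      exact xnu_mul h4 hM₂
    · have hY : p₁ ^ M₁ ≠ 0 := pow_ne_zero _ hp₁0
      have h3 : Polynomial.aeval (l₂ g₂') P / p₁ ^ M₁ ∈ V := by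
        have h4 : Polynomial.aeval (l₂ g₂') P / p₁ ^ M₁ =
            (Polynomial.aeval (l₂ g₂') P / p₂ ^ M₂) * (p₁ ^ M₁ / p₂ ^ M₂)⁻¹ := by
          have := pow_ne_zero M₂ hp₂0
          field_simp
        rw [h4]
        exact V.mul_mem _ _ hP2 hc
      have h4 := two hV hP hY (h1 _ e1.mem) (h2 _ e2.mem) hnear hPn hP1 h3
      have h5 : (l₁ g₁' - l₂ g₂') / X = ((l₁ g₁' - l₂ g₂') / p₁ ^ M₁) * (p₁ ^ M₁ / X) := by
        field_simp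
      rw [h5]
      exact xnu_mul h4 hM₁
  refine sml (P := P) (γ₁ := l₁ g₁') (γ₂ := l₂ g₂') (X := X) (X₁ := p₁ ^ A₁) (X₂ := p₂ ^ A₂) (p₁ := p₁) (p₂ := p₂)
    (z := fun i => l₁ (z₁ i)) (w := fun i => l₂ (z₂ i)) (c := fun u => l₁ (q₁ u)) (d := fun v => l₂ (q₂ v))
    (B₁ := B₁) (B₂ := B₂) (M₁ := M₁) (M₂ := M₂) hV hX0 hX hXV (h1 _ e1.mem) (h2 _ e2.mem) hp₁V hp₂V hγ hPX
    (fun i => h1 _ (e1.zO i)) (fun i => h2 _ (e2.zO i)) (fun u => ?_) (fun v => ?_) hΓ' hσ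
  · have h3 := rem l₁ h1 e1 (X := X) (by rw [← hp₁]; exact hM₁) u
    rw [← hp₁] at h3
    exact h3
  · have h3 := rem l₂ h2 e2 (X := X) (by rw [← hp₂]; exact hM₂) v
    rw [← hp₂] at h3
    exact h3

end Pool.Agent.H12.GN
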