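import Mathlib

/-! # [H12 GN LAL] Linear algebra: coefficients which kill polynomials modulo `P`

The `k`-linear map `(Fin m₁ → Fin m₂ → k) → (J → AdjoinRoot P)`, `σ ↦ (j ↦ mk P (∑ C (σ u v) Q j u v))`: the source has dimension `m₁ m₂`, the target `card J · natDegree P` (`P ≠ 0`: `AdjoinRoot.powerBasis`, `PowerBasis.finrank`), so it is not injective (`LinearMap.exists_ne_zero_of_finrank_lt` or
`LinearMap.ker_ne_bot_of_finrank_lt`). `AdjoinRoot.mk_eq_zero : mk P Q = 0 ↔ P ∣ Q`. -/

namespace Pool.Agent.H12.GN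

theorem lal {k : Type} [Field k] {P : Polynomial k} (hP : P ≠ 0) {m₁ m₂ : ℕ} {J : Type} [Fintype J]
    (Q : J → Fin m₁ → Fin m₂ → Polynomial k) (h : Fintype.card J * P.natDegree < m₁ * m₂) :
    ∃ σ : Fin m₁ → Fin m₂ → k, (∃ u v, σ u v ≠ 0) ∧
      ∀ j, P ∣ ∑ u, ∑ v, Polynomial.C (σ u v) * Q j u v := by
  classical
  have hfin : Module.Finite k (AdjoinRoot P) := (AdjoinRoot.powerBasis hP).finite
  have hfr : Module.finrank k (AdjoinRoot P) = P.natDegree := by
    rw [(AdjoinRoot.powerBasis hP).finrank, AdjoinRoot.powerBasis_dim]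
  let T : (Fin m₁ → Fin m₂ → k) →ₗ[k] (J → AdjoinRoot P) :=
    { toFun := fun σ j => AdjoinRoot.mk P (∑ u, ∑ v, Polynomial.C (σ u v) * Q j u v)
      map_add' := by
        intro σ τ
        funext j
        simp only [Pi.add_apply]
        rw [← map_add, ← Finset.sum_add_distrib]
        congr 1
        refine Finset.sum_congr rfl fun u _ => ?_
        rw [← Finset.sum_add_distrib]
        refine Finset.sum_congr rfl fun v _ => ?_
        rw [Polynomial.C_add, add_mul]
      map_smul' := by
        intro a σ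
        funext j
        simp only [Pi.smul_apply, RingHom.id_apply, smul_eq_mul]
        rw [AdjoinRoot.smul_mk, Finset.smul_sum]
        congr 1
        refine Finset.sum_congr rfl fun u _ => ?_
        rw [Finset.smul_sum]
        refine Finset.sum_congr rfl fun v _ => ?_
        rw [Polynomial.C_mul, Polynomial.smul_eq_C_mul, mul_assoc] }
  have h1 : Module.finrank k (J → AdjoinRoot P) = Fintype.card J * P.natDegree := by
    rw [Module.finrank_pi_fintype]
    simp [hfr]
  have h2 : Module.finrank k (Fin m₁ → Fin m₂ → k) = m₁ * m₂ := by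
    rw [Module.finrank_pi_fintype]
    simp
  have hker : LinearMap.ker T ≠ ⊥ := by
    apply LinearMap.ker_ne_bot_of_finrank_lt
    rw [h1, h2]
    exact h
  obtain ⟨σ, hσ, hσ0⟩ := Submodule.exists_mem_ne_zero_of_ne_bot hker
  refine ⟨σ, ?_, fun j => ?_⟩
  · by_contra hcon
    push Not at hcon
    apply hσ0
    funext u v
    exact hcon u v
  · rw [LinearMap.mem_ker] at hσ
    have h3 := congrFun hσ j
    exact AdjoinRoot.mk_eq_zero.1 h3

end Pool.Agent.H12.GN
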