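import Pool.Agent.H12.GN.Dpa
import Pool.Agent.H12.GN.Exx
import Pool.Agent.H12.GN.Lal
import Pool.Agent.H12.GN.Cnt
import Pool.Agent.H82.NS.Q0alg
import Pool.Agent.H8.OA.Ld

/-! # [H12 GN DPP] Two exceptional points are algebraically dependent

`k = Q0 H`, `V = V0 H`, `O_j = V.comap (algebraMap L_j QS)`. `P(g₂) ∈ V.nonunits` too (`g₁ ∈ V` by `gO`, `P(g₁) - P(g₂) ∈ (g₁ - g₂) V`). `P(g_j) ∈ O_j.nonunits`; `Inf k U_j O_j`. `pls` for both: `π_j, e_j, s_j, z_j, c_j`. `|U₁| ≤ |U₂|^C`: `U₁/U₂^C ∈ V` (`V0 H` contains the elements of absolute value `≤ 1`; `U₂ ≠ 0`).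
`cmu` twice; take the larger exponent for both hypotheses `h12`, `h21` of `cnt` (`p₁^n/p₂ ∈ V` and `n ≤ n'` give `p₁^(n')/p₂ ∈ V`); `c = max c₁ c₂`: `A₁, A₂, Γ`. `fam A_j`: `q_j`, `m_j ≥ r s_j (A_j - c_j) ≥ r s_j (A_j - c)`. `M` with `(M,0), (0,M) ∉ Γ` (`Γ` is finite). `Pls.exx A_j M`. `card Γ s₁ s₂ r < m₁ m₂` (`r ≥ 3`, `s_j ≥ 1`): `lal`: `σ`.
`szv` with `l_j = L_j.val`: `Z ∈ V.nonunits`; `sml_zero`: `Z = 0`. Suppose `U₂` is transcendental over `k(U₁)`; then over `L₁` (algebraic over `k(U₁)`). `RelCl k L₁` (`q0_alg`). `ld` (H8/OA/Ld) with `E = L₁`, `F = L₂`, `M = QS`, `x = U₂`, `c = q₁`, `w u = ∑_v σ u v • q₂ v`: all `w u = 0`, so `σ = 0` (`q₂` independent). Contradiction. -/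

namespace Pool.Agent.H12.GN

open Pool.Agent.H12.ON Pool.Agent.H12.OG Pool.Agent.H82.NS Finset IntermediateField

private theorem v0_ov (H : ℕ → ℕ) : Ov (Q0 H) (V0 H) := by
  intro c
  rcases abs_choice (c : QS) with h | h
  · exact ⟨(c : QS), c.2, le_of_eq h⟩
  · exact ⟨-(c : QS), (Q0 H).neg_mem c.2, le_of_eq h⟩

private theorem v0_one {H : ℕ → ℕ} {x y : QS} {C : ℕ} (hy : y ≠ 0) (h : |x| ≤ |y| ^ C) :
    x / y ^ C ∈ V0 H := by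
  refine ⟨1, (Q0 H).one_mem, ?_⟩
  rw [abs_div, abs_pow]
  exact (div_le_one₀ (pow_pos (abs_pos.2 hy) C)).2 h

private theorem non_mul {L : Type} [Field L] {O : ValuationSubring L} {w h : L} (hw : w ∈ O)
    (hh : h ∈ O.nonunits) : w * h ∈ O.nonunits := by
  rw [ValuationSubring.mem_nonunits_iff_exists_mem_maximalIdeal] at hh ⊢
  obtain ⟨h1, h2⟩ := hh
  exact ⟨O.mul_mem _ _ hw h1, Ideal.mul_mem_left _ ⟨w, hw⟩ h2⟩

private theorem non_mem {L : Type} [Field L] {O : ValuationSubring L} {h : L} (hh : h ∈ O.nonunits) :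
    h ∈ O := by
  rw [ValuationSubring.mem_nonunits_iff_exists_mem_maximalIdeal] at hh
  exact hh.1

private theorem aev_sub {k L : Type} [Field k] [Field L] [Algebra k L] {O : ValuationSubring L}
    (hO : Ov k O) {g g' : L} (hg : g ∈ O) (hg' : g' ∈ O) (A : Polynomial k) :
    ∃ w ∈ O, Polynomial.aeval g' A - Polynomial.aeval g A = w * (g' - g) := by
  obtain ⟨ι, hι⟩ : ∃ ι : k →+* O, O.subtype.comp ι = algebraMap k L :=
    ⟨(algebraMap k L).codRestrict O.toSubring hO, rfl⟩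
  have key : ∀ x : O, O.subtype ((A.map ι).eval x) = Polynomial.aeval (x : L) A := by
    intro x
    rw [Polynomial.eval_map, Polynomial.hom_eval₂, hι, Polynomial.aeval_def]
    rfl
  obtain ⟨w, hw⟩ := Polynomial.evalSubFactor (A.map ι) ⟨g', hg'⟩ ⟨g, hg⟩
  have h1 := congrArg O.subtype hw
  rw [map_sub, key, key, map_mul, map_sub] at h1
  exact ⟨w, w.2, h1⟩

private theorem cm_mem {H : ℕ → ℕ} {L : IntermediateField (Q0 H) QS} (z : L) :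
    z ∈ (V0 H).comap (algebraMap L QS) ↔ (z : QS) ∈ V0 H := Iff.rfl

private theorem cm_non {H : ℕ → ℕ} {L : IntermediateField (Q0 H) QS} (z : L) :
    z ∈ ((V0 H).comap (algebraMap L QS)).nonunits ↔ (z : QS) ∈ (V0 H).nonunits := by
  rw [ValuationSubring.mem_nonunits_iff_or, ValuationSubring.mem_nonunits_iff_or, cm_mem]
  have h1 : ((z⁻¹ : L) : QS) = (z : QS)⁻¹ := rfl
  rw [h1]
  constructor
  · rintro (h | h)
    · exact Or.inl (by rw [h]; rfl)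
    · exact Or.inr h
  · rintro (h | h)
    · exact Or.inl (Subtype.ext h)
    · exact Or.inr h

private theorem int_up {H : ℕ → ℕ} {L : IntermediateField (Q0 H) QS} {U : QS} (h : U ∈ L) {q : L}
    (hq : IsInt (Q0 H) (⟨U, h⟩ : L) q) : IsIntegral (Algebra.adjoin (Q0 H) {U}) (q : QS) := by
  obtain ⟨p, hp, hpq⟩ := hq
  have hmem : ∀ a : Algebra.adjoin (Q0 H) {(⟨U, h⟩ : L)}, L.val (a : L) ∈ Algebra.adjoin (Q0 H) {U} := by
    intro a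
    have h1 : L.val (a : L) ∈ (Algebra.adjoin (Q0 H) {(⟨U, h⟩ : L)}).map L.val := ⟨a, a.2, rfl⟩
    rw [AlgHom.map_adjoin, Set.image_singleton] at h1
    exact h1
  obtain ⟨φ, hφ⟩ : ∃ φ : Algebra.adjoin (Q0 H) {(⟨U, h⟩ : L)} →+* Algebra.adjoin (Q0 H) {U},
      ∀ a, ((φ a : Algebra.adjoin (Q0 H) {U}) : QS) = L.val (a : L) :=
    ⟨((L.val : L →+* QS).comp (Algebra.adjoin (Q0 H) {(⟨U, h⟩ : L)}).val.toRingHom).codRestrict
      (Algebra.adjoin (Q0 H) {U}).toSubring hmem, fun _ => rfl⟩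
  refine ⟨p.map φ, hp.map φ, ?_⟩
  rw [Polynomial.eval₂_map]
  have h2 := congrArg (L.val : L →+* QS) hpq
  rw [Polynomial.hom_eval₂, map_zero] at h2
  rw [← h2]
  congr 1
  exact RingHom.ext hφ

private theorem cl_rel {H : ℕ → ℕ} (L : IntermediateField (Q0 H) QS) : Pool.Agent.H8.OA.RelCl (Q0 H) L := by
  intro z hz
  have h1 : IsAlgebraic (Q0 H) (z : QS) := hz.algebraMap (A := QS)
  exact ⟨⟨(z : QS), q0_alg H _ h1⟩, rfl⟩

private theorem alg_down {H : ℕ → ℕ} {L : IntermediateField (Q0 H) QS} {U U' : QS} (h : U ∈ L)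
    (ff : FF (Q0 H) (⟨U, h⟩ : L)) (ha : IsAlgebraic L U') : IsAlgebraic (Q0 H)⟮U⟯ U' := by
  have hfin := ff.fin
  have halg : Algebra.IsAlgebraic (Q0 H)⟮(⟨U, h⟩ : L)⟯ L := Algebra.IsAlgebraic.of_finite _ _
  have h1 : IsAlgebraic (Q0 H)⟮(⟨U, h⟩ : L)⟯ U' := IsAlgebraic.restrictScalars _ ha
  have hmem : ∀ a : (Q0 H)⟮(⟨U, h⟩ : L)⟯, L.val (a : L) ∈ (Q0 H)⟮U⟯ := by
    intro a
    have h2 : L.val (a : L) ∈ ((Q0 H)⟮(⟨U, h⟩ : L)⟯).map L.val := ⟨a, a.2, rfl⟩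
    rw [IntermediateField.adjoin_map, Set.image_singleton] at h2
    exact h2
  obtain ⟨φ, hφ⟩ : ∃ φ : (Q0 H)⟮(⟨U, h⟩ : L)⟯ →+* (Q0 H)⟮U⟯,
      ∀ a, ((φ a : (Q0 H)⟮U⟯) : QS) = L.val (a : L) :=
    ⟨((L.val : L →+* QS).comp ((Q0 H)⟮(⟨U, h⟩ : L)⟯).val.toRingHom).codRestrict
      ((Q0 H)⟮U⟯).toSubalgebra.toSubring hmem, fun _ => rfl⟩
  refine IsAlgebraic.ringHom_of_comp_eq φ (RingHom.id QS) h1 (RingHom.injective φ) ?_
  exact RingHom.ext hφ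

theorem dep (H : ℕ → ℕ) (L₁ L₂ : IntermediateField (Q0 H) QS) {U₁ U₂ : QS} (h1 : U₁ ∈ L₁) (h2 : U₂ ∈ L₂)
    (z1 : U₁ ∈ ZS) (z2 : U₂ ∈ ZS) (v1 : U₁ ∉ V0 H) (v2 : U₂ ∉ V0 H) (ff1 : FF (Q0 H) (⟨U₁, h1⟩ : L₁))
    (ff2 : FF (Q0 H) (⟨U₂, h2⟩ : L₂)) {g₁ g₂ : QS} (hg1 : g₁ ∈ L₁) (hg2 : g₂ ∈ L₂) {P : Polynomial (Q0 H)}
    (hP : Irreducible P) (h3 : 3 ≤ P.natDegree) (hPg : Polynomial.aeval g₁ P ∈ (V0 H).nonunits)
    (hgg : g₁ - g₂ ∈ (V0 H).nonunits) {C : ℕ} (h12 : |U₁| ≤ |U₂| ^ C) (h21 : |U₂| ≤ |U₁| ^ C) :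
    IsAlgebraic (Q0 H)⟮U₁⟯ U₂ := by
  have hV := v0_ov H
  have hU1 : U₁ ≠ 0 := by
    rintro rfl
    exact v1 (V0 H).zero_mem
  have hU2 : U₂ ≠ 0 := by
    rintro rfl
    exact v2 (V0 H).zero_mem
  have hg1V : g₁ ∈ V0 H := gO hV hP hPg
  have hg2V : g₂ ∈ V0 H := by
    have h := sub_mem hg1V (non_mem hgg)
    rwa [sub_sub_cancel] at h
  have hPg2 : Polynomial.aeval g₂ P ∈ (V0 H).nonunits := by
    obtain ⟨w, hw, hw'⟩ := aev_sub hV hg2V hg1V P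
    have h : Polynomial.aeval g₂ P = Polynomial.aeval g₁ P - w * (g₁ - g₂) := by
      rw [← hw']
      ring
    rw [h]
    exact sub_mem hPg (non_mul hw hgg)
  have ha1 : Polynomial.aeval (⟨g₁, hg1⟩ : L₁) P ∈ ((V0 H).comap (algebraMap L₁ QS)).nonunits := by
    rw [cm_non]
    have h : ((Polynomial.aeval (⟨g₁, hg1⟩ : L₁) P : L₁) : QS) = Polynomial.aeval g₁ P :=
      (Polynomial.aeval_algHom_apply L₁.val (⟨g₁, hg1⟩ : L₁) P).symm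
    rw [h]
    exact hPg
  have ha2 : Polynomial.aeval (⟨g₂, hg2⟩ : L₂) P ∈ ((V0 H).comap (algebraMap L₂ QS)).nonunits := by
    rw [cm_non]
    have h : ((Polynomial.aeval (⟨g₂, hg2⟩ : L₂) P : L₂) : QS) = Polynomial.aeval g₂ P :=
      (Polynomial.aeval_algHom_apply L₂.val (⟨g₂, hg2⟩ : L₂) P).symm
    rw [h]
    exact hPg2
  have i1 : Inf (Q0 H) (⟨U₁, h1⟩ : L₁) ((V0 H).comap (algebraMap L₁ QS)) := ⟨fun e => hV e, v1⟩
  have i2 : Inf (Q0 H) (⟨U₂, h2⟩ : L₂) ((V0 H).comap (algebraMap L₂ QS)) := ⟨fun e => hV e, v2⟩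
  obtain ⟨π₁, e₁, s₁, y₁, c₁, p1⟩ := pls ff1 i1 hP ha1
  obtain ⟨π₂, e₂, s₂, y₂, c₂, p2⟩ := pls ff2 i2 hP ha2
  have hp1 : (π₁ : QS) ≠ 0 := fun h => p1.π0 (Subtype.ext h)
  have hp2 : (π₂ : QS) ≠ 0 := fun h => p2.π0 (Subtype.ext h)
  have n1 : (π₁ : QS) ∈ (V0 H).nonunits := (cm_non π₁).1 p1.πm
  have n2 : (π₂ : QS) ∈ (V0 H).nonunits := (cm_non π₂).1 p2.πm
  have c12 : (π₂ : QS) ^ (e₂ * C) / π₁ ∈ V0 H :=
    cmu p1.e1 hp1 hU1 hU2 (non_mem n1) p1.x1 p2.x2 (v0_one hU2 h12)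
  have c21 : (π₁ : QS) ^ (e₁ * C) / π₂ ∈ V0 H :=
    cmu p2.e1 hp2 hU2 hU1 (non_mem n2) p2.x1 p1.x2 (v0_one hU1 h21)
  have hmono : ∀ {a b : QS} {m n : ℕ}, a ∈ V0 H → m ≤ n → a ^ m / b ∈ V0 H → a ^ n / b ∈ V0 H := by
    intro a b m n ha hmn h
    have h3 : a ^ n / b = a ^ (n - m) * (a ^ m / b) := by
      rw [← mul_div_assoc, ← pow_add, Nat.sub_add_cancel hmn]
    rw [h3]
    exact mul_mem (pow_mem ha _) h
  obtain ⟨A₁, A₂, Γ, hcard, hΓ⟩ := cnt hp1 hp2 n1 n2 (C := max (e₁ * C) (e₂ * C))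
    (hmono (non_mem n1) (le_max_left _ _) c21) (hmono (non_mem n2) (le_max_right _ _) c12) (max c₁ c₂)
  obtain ⟨m₁, q₁, ql1, qi1, qO1, qm1⟩ := p1.fam A₁
  obtain ⟨m₂, q₂, ql2, qi2, qO2, qm2⟩ := p2.fam A₂
  obtain ⟨M, hM1, hM2⟩ : ∃ M : ℕ, (M, 0) ∉ Γ ∧ (0, M) ∉ Γ := by
    refine ⟨Γ.sup Prod.fst + Γ.sup Prod.snd + 1, fun h => ?_, fun h => ?_⟩
    · have h4 := Finset.le_sup (f := Prod.fst) h
      dsimp only at h4
      omega
    · have h4 := Finset.le_sup (f := Prod.snd) h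
      dsimp only at h4
      omega
  obtain ⟨g₁', B₁, x1⟩ := p1.exx A₁ M qO1
  obtain ⟨g₂', B₂, x2⟩ := p2.exx A₂ M qO2
  obtain ⟨σ, hσ0, hσ⟩ := lal hP.ne_zero (m₁ := m₁) (m₂ := m₂) (J := Γ × Fin s₁ × Fin s₂)
    (fun j u v => B₁ u j.2.1 j.1.1.1 * B₂ v j.2.2 j.1.1.2) (by
      rw [Fintype.card_prod, Fintype.card_prod, Fintype.card_fin, Fintype.card_fin, Fintype.card_coe]
      have hr : 0 < P.natDegree := by omega
      have hs : 0 < s₁ * s₂ * P.natDegree :=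
        Nat.mul_pos (Nat.mul_pos p1.s1 p2.s1) hr
      have hle1 : P.natDegree * s₁ * (A₁ - max c₁ c₂) ≤ m₁ :=
        (Nat.mul_le_mul_left _ (Nat.sub_le_sub_left (le_max_left _ _) _)).trans qm1
      have hle2 : P.natDegree * s₂ * (A₂ - max c₁ c₂) ≤ m₂ :=
        (Nat.mul_le_mul_left _ (Nat.sub_le_sub_left (le_max_right _ _) _)).trans qm2
      calc Γ.card * (s₁ * s₂) * P.natDegree = Γ.card * (s₁ * s₂ * P.natDegree) := by ring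
        _ < 3 * ((A₁ - max c₁ c₂) * (A₂ - max c₁ c₂)) * (s₁ * s₂ * P.natDegree) :=
            Nat.mul_lt_mul_of_pos_right hcard hs
        _ ≤ P.natDegree * ((A₁ - max c₁ c₂) * (A₂ - max c₁ c₂)) * (s₁ * s₂ * P.natDegree) :=
            Nat.mul_le_mul_right _ (Nat.mul_le_mul_right _ h3)
        _ = (P.natDegree * s₁ * (A₁ - max c₁ c₂)) * (P.natDegree * s₂ * (A₂ - max c₁ c₂)) := by ring
        _ ≤ m₁ * m₂ := Nat.mul_le_mul hle1 hle2)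
  have hM1' := hΓ M 0 hM1
  have hM2' := hΓ 0 M hM2
  rw [pow_zero, mul_one] at hM1'
  rw [pow_zero, one_mul] at hM2'
  have hsz := szv L₁.val L₂.val hV (fun z hz => hz) (fun z hz => hz) (fun z hz => (cm_non z).1 hz)
    (fun z hz => (cm_non z).1 hz) hP hgg x1 x2 hM1' hM2' hΓ
    (σ := σ) (fun ab hab i j => hσ (⟨ab, hab⟩, i, j))
  have hz := sml_zero H z1 z2 (fun u => int_up h1 (qi1 u)) (fun v => int_up h2 (qi2 v)) hsz
  by_contra hna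
  have htr : Transcendental L₁ (algebraMap L₂ QS (⟨U₂, h2⟩ : L₂)) := fun h => hna (alg_down h1 ff1 h)
  have hfin := ff2.fin
  have hLA : Algebra.IsAlgebraic (Q0 H)⟮(⟨U₂, h2⟩ : L₂)⟯ L₂ := Algebra.IsAlgebraic.of_finite _ _
  have hw := Pool.Agent.H8.OA.ld (M := QS) (cl_rel L₁) htr hLA ql1 (w := fun u => ∑ v, σ u v • q₂ v) (by
    rw [← hz]
    refine Finset.sum_congr rfl fun u _ => ?_
    rw [map_sum, Finset.mul_sum]
    refine Finset.sum_congr rfl fun v _ => ?_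
    rw [Algebra.smul_def, map_mul, ← IsScalarTower.algebraMap_apply]
    change (q₁ u : QS) * (algebraMap (Q0 H) QS (σ u v) * (q₂ v : QS)) =
      algebraMap (Q0 H) QS (σ u v) * (q₁ u : QS) * (q₂ v : QS)
    ring)
  obtain ⟨u, v, huv⟩ := hσ0
  exact huv (Fintype.linearIndependent_iff.1 ql2 (σ u) (hw u) v)

end Pool.Agent.H12.GN
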