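import Pool.Agent.H12.ON.Def

/-! # [H12 GN EXD] Expansions in powers of the uniformizer

`spc`: `A(g') - A(g) = (g' - g) · (element of O) ∈ m` (`Polynomial.aeval` of `X - Y ∣ A(X) - A(Y)`: `sub_dvd_eval_sub` or by induction on `A`), so the spanning property for `g` gives the one for `g'`.
`exd`: induction on `M`. `M = 0`: `r = a`. Step: `a = ∑_{j<M} … + r π^M`, `hsp` for `r`: `r = ∑_i A_i(g') z_i + π r'`, `r' ∈ O` (`huni`): `B i M := A_i`, `r'` is the new remainder. -/

namespace Pool.Agent.H12.GN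

open Pool.Agent.H12.ON Finset

private theorem exd_mul {L : Type} [Field L] {O : ValuationSubring L} {w h : L} (hw : w ∈ O)
    (hh : h ∈ O.nonunits) : w * h ∈ O.nonunits := by
  rw [ValuationSubring.mem_nonunits_iff_exists_mem_maximalIdeal] at hh ⊢
  obtain ⟨h1, h2⟩ := hh
  exact ⟨O.mul_mem _ _ hw h1, Ideal.mul_mem_left _ ⟨w, hw⟩ h2⟩

private theorem exd_sub {k L : Type} [Field k] [Field L] [Algebra k L] {O : ValuationSubring L}
    (hO : Ov k O) {g g' : L} (hg : g ∈ O) (hg' : g' ∈ O) (A : Polynomial k) :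
    ∃ w ∈ O, Polynomial.aeval g' A - Polynomial.aeval g A = w * (g' - g) := by
  obtain ⟨ι, hι⟩ : ∃ ι : k →+* O, O.subtype.comp ι = algebraMap k L :=
    ⟨(algebraMap k L).codRestrict O.toSubring hO, rfl⟩
  have key : ∀ x : O, O.subtype ((A.map ι).eval x) = Polynomial.aeval (x : L) A := by
    intro x
    rw [Polynomial.eval_map, Polynomial.hom_eval₂, hι, Polynomial.aeval_def]
    rfl
  obtain ⟨w, hw⟩ := Polynomial.evalSubFactor (A.map ι) ⟨g', hg'⟩ ⟨g, hg⟩
  have h1 := congrArg O.subtype hw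
  rw [map_sub, key, key, map_mul, map_sub] at h1
  exact ⟨w, w.2, h1⟩

theorem spc {k L : Type} [Field k] [Field L] [Algebra k L] {O : ValuationSubring L} (hO : Ov k O) {s : ℕ}
    {z : Fin s → L} (hz : ∀ i, z i ∈ O) {g g' : L} (hg : g ∈ O) (hg' : g' ∈ O) (h : g' - g ∈ O.nonunits)
    (hsp : ∀ a ∈ O, ∃ A : Fin s → Polynomial k, a - ∑ i, Polynomial.aeval g (A i) * z i ∈ O.nonunits) :
    ∀ a ∈ O, ∃ A : Fin s → Polynomial k, a - ∑ i, Polynomial.aeval g' (A i) * z i ∈ O.nonunits := by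
  intro a ha
  obtain ⟨A, hA⟩ := hsp a ha
  refine ⟨A, ?_⟩
  have h1 : a - ∑ i, Polynomial.aeval g' (A i) * z i = (a - ∑ i, Polynomial.aeval g (A i) * z i) -
      ∑ i, (Polynomial.aeval g' (A i) - Polynomial.aeval g (A i)) * z i := by
    rw [sub_sub, ← Finset.sum_add_distrib]
    congr 1
    exact Finset.sum_congr rfl fun i _ => by ring
  rw [h1]
  refine sub_mem hA (sum_mem fun i _ => ?_)
  rw [mul_comm]
  refine exd_mul (hz i) ?_
  obtain ⟨w, hw, hw'⟩ := exd_sub hO hg hg' (A i)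
  rw [hw']
  exact exd_mul hw h

theorem exd {k L : Type} [Field k] [Field L] [Algebra k L] {O : ValuationSubring L} {π : L} (hπ0 : π ≠ 0)
    (huni : ∀ a ∈ O.nonunits, a / π ∈ O) {s : ℕ} {z : Fin s → L} {g : L}
    (hsp : ∀ a ∈ O, ∃ A : Fin s → Polynomial k, a - ∑ i, Polynomial.aeval g (A i) * z i ∈ O.nonunits)
    (M : ℕ) {a : L} (ha : a ∈ O) : ∃ (B : Fin s → ℕ → Polynomial k) (r : L), r ∈ O ∧
      a = (∑ i, ∑ j ∈ range M, Polynomial.aeval g (B i j) * z i * π ^ j) + r * π ^ M := by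
  induction M with
  | zero => exact ⟨fun _ _ => 0, a, ha, by simp⟩
  | succ M ih =>
    obtain ⟨B, r, hr, hB⟩ := ih
    obtain ⟨A, hA⟩ := hsp r hr
    refine ⟨fun i j => if j = M then A i else B i j, (r - ∑ i, Polynomial.aeval g (A i) * z i) / π,
      huni _ hA, ?_⟩
    have h1 : ∀ i, ∑ j ∈ range (M + 1), Polynomial.aeval g (if j = M then A i else B i j) * z i * π ^ j =
        (∑ j ∈ range M, Polynomial.aeval g (B i j) * z i * π ^ j) +
          Polynomial.aeval g (A i) * z i * π ^ M := by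
      intro i
      rw [Finset.sum_range_succ, if_pos rfl]
      congr 1
      refine Finset.sum_congr rfl fun j hj => ?_
      rw [if_neg (Finset.mem_range.1 hj).ne]
    rw [Finset.sum_congr rfl fun i _ => h1 i, Finset.sum_add_distrib, pow_succ', ← mul_assoc,
      div_mul_cancel₀ _ hπ0, sub_mul, Finset.sum_mul]
    linear_combination hB

end Pool.Agent.H12.GN
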