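import Pool.Agent.H12.OG.Def
import Pool.Agent.H82.NS.PlA

/-! # [H12 GN FAM] Many integral functions with bounded pole order

`D = [L : k(x)]`. A basis `b_1, …, b_D` of `L` over `k(x)` of elements integral over `k[x]` (every element of `L` is algebraic over `k[x]`; multiply by a nonzero element of `k[x]`: Mathlib `exists_integral_multiple` or `IsLocalization`/`IsFractionRing` lemmas, or
`FractionRing.exists_isIntegral...`; an element times a nonzero element of `k(x)` keeps a basis). `pole_bdd` (H82/NS/PlA): `b_j x^(-n_j) ∈ O`; `x^(-1) = (x^(-1)/π^e) π^e`, so `x^n π^(e n) ∈ O` (`hx2`) and `π^c b_j ∈ O` for `c = e · max n_j` (`π ∈ O`).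
Let `A ≥ c`, `N = (A - c)/e` (division in `ℕ`), `q_(i,j) = x^i b_j`, `i ≤ N`, `j ≤ D`: `π^A x^i b_j = (π^e x)^i π^(A - c - e i) (π^c b_j) ∈ O`; integral over `k[x]`; linearly independent over `k` (`LinearIndependent.smul`: the powers of `x` are independent over `k`, the `b_j` over `k(x)`).
Their number `m = D (N+1)` has `e m = D e (N+1) ≥ D (A - c)`. For `A < c` take `m = 0`. -/

namespace Pool.Agent.H12.GN

open Pool.Agent.H12.OG Pool.Agent.H82.NS IntermediateField

private theorem fam_pow {k L : Type} [Field k] [Field L] [Algebra k L] {x : L} (hx : Transcendental k x) (N : ℕ) :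
    LinearIndependent k (fun i : Fin N => (AdjoinSimple.gen k x) ^ (i : ℕ)) := by
  rw [Fintype.linearIndependent_iff]
  intro g hg i
  have h1 : ∑ j : Fin N, g j • x ^ (j : ℕ) = 0 := by
    have h2 := congrArg (algebraMap k⟮x⟯ L) hg
    rw [map_zero, map_sum] at h2
    rw [← h2]
    refine Finset.sum_congr rfl fun j _ => ?_
    rfl
  have h3 : Polynomial.aeval x (∑ j : Fin N, Polynomial.monomial (j : ℕ) (g j)) = 0 := by
    rw [map_sum, ← h1]
    refine Finset.sum_congr rfl fun j _ => ?_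
    rw [Polynomial.aeval_monomial, Algebra.smul_def]
  have h4 := transcendental_iff.1 hx _ h3
  have h5 := congrArg (fun p => Polynomial.coeff p (i : ℕ)) h4
  simp only [Polynomial.finsetSum_coeff, Polynomial.coeff_monomial, Polynomial.coeff_zero] at h5
  rw [Finset.sum_eq_single i] at h5
  · rwa [if_pos rfl] at h5
  · intro j _ hj
    rw [if_neg]
    intro h6
    exact hj (Fin.ext h6)
  · intro h6
    exact absurd (Finset.mem_univ i) h6

/-- a basis of integral elements -/
private theorem fam_basis {k L : Type} [Field k] [Field L] [Algebra k L] {x : L} (hK : FF k x) :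
    ∃ b : Fin (Module.finrank k⟮x⟯ L) → L, LinearIndependent k⟮x⟯ b ∧ ∀ j, IsInt k x (b j) := by
  have hfin := hK.fin
  have h1 : ∀ j : Fin (Module.finrank k⟮x⟯ L), ∃ y : k⟮x⟯, y ≠ 0 ∧
      IsInt k x ((y : L) * (Module.finBasis k⟮x⟯ L) j) := by
    intro j
    have h2 : IsAlgebraic (Algebra.adjoin k {x}) ((Module.finBasis k⟮x⟯ L) j) :=
      isAlgebraic_adjoin_iff.mp (Algebra.IsAlgebraic.isAlgebraic _)
    obtain ⟨y, hy, hi⟩ := h2.exists_integral_multiple
    have h3 : (y : L) ∈ k⟮x⟯ := algebra_adjoin_le_adjoin k {x} y.2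
    refine ⟨⟨y, h3⟩, ?_, ?_⟩
    · intro h4
      apply hy
      have h5 := congrArg (algebraMap k⟮x⟯ L) h4
      rw [map_zero] at h5
      exact Subtype.ext h5
    · exact hi
  choose y hy hi using h1
  refine ⟨fun j => (y j : L) * (Module.finBasis k⟮x⟯ L) j, ?_, hi⟩
  have h2 := (Module.finBasis k⟮x⟯ L).linearIndependent.units_smul (fun j => Units.mk0 (y j) (hy j))
  exact h2

theorem fam {k L : Type} [Field k] [Field L] [Algebra k L] {x : L} (hK : FF k x) {O : ValuationSubring L}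
    (hO : Inf k x O) {π : L} {e : ℕ} (hπ0 : π ≠ 0) (hπ : π ∈ O.nonunits) (he : 1 ≤ e)
    (hx1 : x⁻¹ / π ^ e ∈ O) (hx2 : π ^ e * x ∈ O) : ∃ c : ℕ, ∀ A : ℕ, ∃ (m : ℕ) (q : Fin m → L),
      LinearIndependent k q ∧ (∀ i, IsInt k x (q i)) ∧ (∀ i, π ^ A * q i ∈ O) ∧
      Module.finrank k⟮x⟯ L * (A - c) ≤ e * m := by
  classical
  have hfin := hK.fin
  have hπO : π ∈ O := ValuationSubring.nonunits_subset hπ
  have hx0 : x ≠ 0 := fun h0 => hO.pole (by rw [h0]; exact O.zero_mem)
  obtain ⟨b, hb, hbi⟩ := fam_basis hK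
  choose n hn using fun j => pole_bdd hK hO (b j)
  obtain ⟨S, hS⟩ : ∃ S, ∀ j, n j ≤ S := ⟨Finset.univ.sup n, fun j => Finset.le_sup (Finset.mem_univ j)⟩
  have hc : ∀ j, π ^ (e * S) * b j ∈ O := by
    intro j
    have h1 : π ^ (e * S) * b j = π ^ (e * (S - n j)) * ((π ^ e * x) ^ n j * (b j * x⁻¹ ^ n j)) := by
      have h2 : e * S = e * (S - n j) + e * n j := by
        rw [← Nat.mul_add]
        congr 1
        have := hS j
        omega
      rw [h2, pow_add, mul_pow, ← pow_mul, inv_pow]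
      have h3 : x ^ n j ≠ 0 := pow_ne_zero _ hx0
      field_simp
    rw [h1]
    exact O.mul_mem _ _ (O.pow_mem hπO _) (O.mul_mem _ _ (O.pow_mem hx2 _) (hn j))
  refine ⟨e * S, fun A => ?_⟩
  by_cases hA : A < e * S
  · refine ⟨0, Fin.elim0, linearIndependent_empty_type, fun i => i.elim0, fun i => i.elim0, ?_⟩
    rw [Nat.sub_eq_zero_of_le hA.le, Nat.mul_zero, Nat.mul_zero]
  · rw [not_lt] at hA
    obtain ⟨N, hN⟩ : ∃ N, N = (A - e * S) / e := ⟨_, rfl⟩
    have hN1 : e * N ≤ A - e * S := by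
      rw [hN]
      exact Nat.mul_div_le _ _
    have hN2 : A - e * S < e * (N + 1) := by
      rw [hN]
      exact Nat.lt_mul_div_succ _ (by omega)
    have hli := linearIndependent_smul (fam_pow hK.tr (N + 1)) hb
    refine ⟨(N + 1) * Module.finrank k⟮x⟯ L, fun i =>
      (fun p : Fin (N + 1) × Fin (Module.finrank k⟮x⟯ L) => (AdjoinSimple.gen k x) ^ (p.1 : ℕ) • b p.2)
        (finProdFinEquiv.symm i), ?_, ?_, ?_, ?_⟩
    · exact (linearIndependent_equiv finProdFinEquiv.symm).2 hli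
    · intro i
      obtain ⟨p, hp⟩ : ∃ p, p = (finProdFinEquiv.symm i : Fin (N + 1) × Fin (Module.finrank k⟮x⟯ L)) := ⟨_, rfl⟩
      simp only
      rw [← hp]
      have h1 : (AdjoinSimple.gen k x) ^ (p.1 : ℕ) • b p.2 = x ^ (p.1 : ℕ) * b p.2 := by
        rw [Algebra.smul_def, map_pow, AdjoinSimple.algebraMap_gen]
      rw [h1]
      have h2 : IsIntegral (Algebra.adjoin k {x}) x :=
        isIntegral_algebraMap (R := Algebra.adjoin k {x}) (A := L) (x := ⟨x, Algebra.subset_adjoin rfl⟩)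
      exact (h2.pow _).mul (hbi p.2)
    · intro i
      obtain ⟨p, hp⟩ : ∃ p, p = (finProdFinEquiv.symm i : Fin (N + 1) × Fin (Module.finrank k⟮x⟯ L)) := ⟨_, rfl⟩
      simp only
      rw [← hp]
      have h1 : (AdjoinSimple.gen k x) ^ (p.1 : ℕ) • b p.2 = x ^ (p.1 : ℕ) * b p.2 := by
        rw [Algebra.smul_def, map_pow, AdjoinSimple.algebraMap_gen]
      rw [h1]
      have h3 : (p.1 : ℕ) ≤ N := by
        have := p.1.2
        omega
      have h4 : e * (p.1 : ℕ) ≤ e * N := Nat.mul_le_mul_left _ h3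
      have h5 : A = e * (p.1 : ℕ) + (A - e * S - e * (p.1 : ℕ)) + e * S := by omega
      have h6 : π ^ A * (x ^ (p.1 : ℕ) * b p.2) = (π ^ e * x) ^ (p.1 : ℕ) *
          (π ^ (A - e * S - e * (p.1 : ℕ)) * (π ^ (e * S) * b p.2)) := by
        have h7 : π ^ A = π ^ (e * (p.1 : ℕ)) * π ^ (A - e * S - e * (p.1 : ℕ)) * π ^ (e * S) := by
          rw [← pow_add, ← pow_add, ← h5]
        rw [h7, mul_pow, ← pow_mul]
        ring
      rw [h6]
      exact O.mul_mem _ _ (O.pow_mem hx2 _) (O.mul_mem _ _ (O.pow_mem hπO _) (hc p.2))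
    · calc Module.finrank k⟮x⟯ L * (A - e * S) ≤ Module.finrank k⟮x⟯ L * (e * (N + 1)) :=
            Nat.mul_le_mul_left _ hN2.le
        _ = e * ((N + 1) * Module.finrank k⟮x⟯ L) := by ring

end Pool.Agent.H12.GN
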