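import Pool.Agent.H12.GN.Tns

/-! # [H12 GN FNV] Only finitely many values `m ξ`

`M = AlgebraicClosure (RatFunc Ω)` (or of `FractionRing (Polynomial Ω)`), `X ∈ M` the variable, transcendental over `Ω`. `j : L₁ →ₐ[k] M` with `j ξ = X`: `k(ξ) → M`, `ξ ↦ X` (both are purely transcendental: `IntermediateField.adjoin` of a transcendental element), extended to the algebraic extension `L₁` of `k(ξ)` by
`IsAlgClosed.lift`. `A = Ω ⊗[k] L₁`, `Φ : A → M` injective (`tns`), so `A` is a domain. `a = ∑ l(c_i) ⊗ d_i`; `Φ a = ∑ l(c_i) j(d_i) ≠ 0` by `ld` with `E := L₁` (to `M` by `l` and `Ω → M`), `F := L₁` (by `j`; use a type synonym or `L₁` and `ULift`/`j.fieldRange`, because there are two different algebra structures on `M`),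
`x = ξ` (`j ξ` is transcendental over `Ω`, so over `l(L₁)`), `c`, `w = d`: all `d_i = 0` otherwise. `A` and `M` are algebras over `Ω[T]` (`T ↦ 1 ⊗ ξ`, `T ↦ X`, `Φ` is a homomorphism of `Ω[T]`-algebras), `M` is algebraic over `Ω(X)`, so over `Ω[T]`, so `a` is algebraic over `Ω[T]` (`Φ` injective). `IsAlgebraic.exists_nonzero_dvd`
(`a` is not a zero divisor): `r ∈ Ω[T]`, `r ≠ 0`, `a ∣ r(1 ⊗ ξ)`. `N = r`: for `m` let `ψ = productMap (id) m : A → Ω`; `ψ a = ∑ l(c_i) m(d_i) = 0`, so `r(m ξ) = ψ (r(1 ⊗ ξ)) = 0`. -/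

namespace Pool.Agent.H12.GN

open Pool.Agent.H8.OA Pool.Agent.H82.NS IntermediateField TensorProduct

private theorem fnv_alg {k L₁ : Type} [Field k] [Field L₁] [Algebra k L₁] {ξ : L₁} (hK : FF k ξ)
    [Algebra (Polynomial k) L₁]
    (h : ∀ p : Polynomial k, algebraMap (Polynomial k) L₁ p = Polynomial.aeval ξ p) :
    Algebra.IsAlgebraic (Polynomial k) L₁ := by
  have hfin := hK.fin
  have h1 : Algebra.IsAlgebraic (Algebra.adjoin k {ξ}) L₁ :=
    ⟨fun z => isAlgebraic_adjoin_iff.1 (Algebra.IsAlgebraic.isAlgebraic (R := k⟮ξ⟯) z)⟩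
  obtain ⟨f, hf⟩ : ∃ f : Polynomial k →ₐ[k] Algebra.adjoin k {ξ},
      f = Polynomial.aeval ⟨ξ, Algebra.self_mem_adjoin_singleton k ξ⟩ := ⟨_, rfl⟩
  have hfv : ∀ p, ((f p : Algebra.adjoin k {ξ}) : L₁) = Polynomial.aeval ξ p := by
    intro p
    rw [hf]
    have h2 := Polynomial.aeval_algHom_apply (Algebra.adjoin k {ξ}).val
      (⟨ξ, Algebra.self_mem_adjoin_singleton k ξ⟩ : Algebra.adjoin k {ξ}) p
    exact h2.symm
  refine Algebra.IsAlgebraic.of_ringHom_of_comp_eq (S := Algebra.adjoin k {ξ}) (B := L₁)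
    (f : Polynomial k →+* _) (RingHom.id L₁) ?_ Function.injective_id ?_
  · intro y
    have h2 : (y : L₁) ∈ (Polynomial.aeval ξ : Polynomial k →ₐ[k] L₁).range := by
      rw [← Algebra.adjoin_singleton_eq_range_aeval]
      exact y.2
    obtain ⟨p, hp⟩ := h2
    refine ⟨p, Subtype.ext ?_⟩
    change ((f p : Algebra.adjoin k {ξ}) : L₁) = y
    rw [hfv]
    exact hp
  · refine RingHom.ext fun p => ?_
    change ((f p : Algebra.adjoin k {ξ}) : L₁) = algebraMap (Polynomial k) L₁ p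
    rw [hfv, h]

private theorem fnv_lift {k L₁ M : Type} [Field k] [Field L₁] [Field M] [Algebra k L₁]
    [Algebra k M] [IsAlgClosed M] {ξ : L₁} (hK : FF k ξ) {X : M} (hX : Transcendental k X) :
    ∃ j : L₁ →ₐ[k] M, j ξ = X := by
  let a1 : Algebra (Polynomial k) L₁ := (Polynomial.aeval ξ : Polynomial k →ₐ[k] L₁).toRingHom.toAlgebra
  let a2 : Algebra (Polynomial k) M := (Polynomial.aeval X : Polynomial k →ₐ[k] M).toRingHom.toAlgebra
  have e1 : ∀ p : Polynomial k, algebraMap (Polynomial k) L₁ p = Polynomial.aeval ξ p := fun p => rfl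
  have e2 : ∀ p : Polynomial k, algebraMap (Polynomial k) M p = Polynomial.aeval X p := fun p => rfl
  have h1 : Algebra.IsAlgebraic (Polynomial k) L₁ := fnv_alg hK e1
  have i1 : Module.IsTorsionFree (Polynomial k) L₁ :=
    Module.isTorsionFree_iff_algebraMap_injective.2 (transcendental_iff_injective.1 hK.tr)
  have i2 : Module.IsTorsionFree (Polynomial k) M :=
    Module.isTorsionFree_iff_algebraMap_injective.2 (transcendental_iff_injective.1 hX)
  let J : L₁ →ₐ[Polynomial k] M := IsAlgClosed.lift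
  refine ⟨{ J.toRingHom with commutes' := fun c => ?_ }, ?_⟩
  · have h2 := J.commutes (Polynomial.C c)
    rw [e1, e2, Polynomial.aeval_C, Polynomial.aeval_C] at h2
    exact h2
  · have h2 := J.commutes Polynomial.X
    rw [e1, e2, Polynomial.aeval_X, Polynomial.aeval_X] at h2
    exact h2

private theorem fnv_ne {k L₁ Ω : Type} [Field k] [Field L₁] [Field Ω] [Algebra k L₁] [Algebra k Ω]
    (l : L₁ →ₐ[k] Ω) {n : ℕ} {c d : Fin n → L₁} (hc : LinearIndependent k c) (hd : ∃ i, d i ≠ 0) :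
    ∑ i, l (c i) ⊗ₜ[k] d i ≠ 0 := by
  obtain ⟨i, hi⟩ := hd
  intro h0
  have hv : LinearIndependent k (fun i => l (c i)) :=
    hc.map' l.toLinearMap (LinearMap.ker_eq_bot.2 l.toRingHom.injective)
  obtain ⟨g, hg⟩ := LinearMap.exists_leftInverse_of_injective
    (Fintype.linearCombination k (fun i => l (c i)))
    (LinearMap.ker_eq_bot.2 (linearIndependent_iff_injective_fintypeLinearCombination.1 hv))
  have hgc : ∀ j, g (l (c j)) = Pi.single j 1 := by
    intro j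
    have h1 := LinearMap.congr_fun hg (Pi.single j (1 : k))
    rw [LinearMap.comp_apply, Fintype.linearCombination_apply_single, one_smul] at h1
    exact h1
  have h2 := congrArg (fun t => TensorProduct.lid k L₁
    (LinearMap.rTensor L₁ ((LinearMap.proj i : (Fin n → k) →ₗ[k] k).comp g) t)) h0
  simp only [map_sum, LinearMap.rTensor_tmul, TensorProduct.lid_tmul, LinearMap.comp_apply,
    LinearMap.proj_apply, hgc, map_zero] at h2
  rw [Finset.sum_eq_single i] at h2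
  · rw [Pi.single_eq_same, one_smul] at h2
    exact hi h2
  · intro j _ hj
    rw [Pi.single_eq_of_ne hj.symm, zero_smul]
  · intro h
    exact absurd (Finset.mem_univ i) h

private theorem fnv_main {k L₁ Ω M : Type} [Field k] [CharZero k] [Field L₁] [Field Ω] [Field M]
    [Algebra k L₁] [Algebra k Ω] [Algebra k M] [Algebra Ω M] [IsScalarTower k Ω M]
    [Algebra (Polynomial Ω) M] [IsScalarTower Ω (Polynomial Ω) M] [IsAlgClosed M]
    [Algebra.IsAlgebraic (Polynomial Ω) M] (hinj : Function.Injective (algebraMap (Polynomial Ω) M))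
    (hcl : RelCl k L₁) {ξ : L₁} (hK : FF k ξ) (l : L₁ →ₐ[k] Ω)
    (hΩ : Algebra.IsAlgebraic k⟮l ξ⟯ Ω)
    {n : ℕ} {c d : Fin n → L₁} (hc : LinearIndependent k c) (hd : ∃ i, d i ≠ 0) :
    ∃ N : Polynomial Ω, N ≠ 0 ∧ ∀ m : L₁ →ₐ[k] Ω, ∑ i, l (c i) * m (d i) = 0 → N.eval (m ξ) = 0 := by
  obtain ⟨X, hX⟩ : ∃ X : M, X = algebraMap (Polynomial Ω) M Polynomial.X := ⟨_, rfl⟩
  have hmap : ∀ p : Polynomial Ω, algebraMap (Polynomial Ω) M p = Polynomial.aeval X p := by
    intro p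
    have h1 : algebraMap (Polynomial Ω) M =
        ((Polynomial.aeval X : Polynomial Ω →ₐ[Ω] M) : Polynomial Ω →+* M) := by
      refine Polynomial.ringHom_ext (fun ω => ?_) ?_
      · rw [RingHom.coe_coe, Polynomial.aeval_C, IsScalarTower.algebraMap_apply Ω (Polynomial Ω) M]
        rfl
      · rw [RingHom.coe_coe, Polynomial.aeval_X, hX]
    rw [h1]
    rfl
  have hXt : Transcendental Ω X := by
    rw [transcendental_iff_injective]
    intro p q hpq
    rw [← hmap, ← hmap] at hpq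
    exact hinj hpq
  have hXk : Transcendental k X := hXt.restrictScalars (algebraMap k Ω).injective
  obtain ⟨j, hj⟩ := fnv_lift hK hXk
  have hΦ := tns (M := M) hcl hK l hΩ j (by rw [hj]; exact hXt)
  obtain ⟨Φ, hΦd⟩ : ∃ Φ : Ω ⊗[k] L₁ →ₐ[k] M,
      Φ = Algebra.TensorProduct.productMap (IsScalarTower.toAlgHom k Ω M) j := ⟨_, rfl⟩
  rw [← hΦd] at hΦ
  have hΦt : ∀ (ω : Ω) (z : L₁), Φ (ω ⊗ₜ[k] z) = algebraMap Ω M ω * j z := by
    intro ω z
    rw [hΦd, Algebra.TensorProduct.productMap_apply_tmul]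
    rfl
  have hdom : IsDomain (Ω ⊗[k] L₁) := hΦ.isDomain (Φ : Ω ⊗[k] L₁ →+* M)
  let R0 : Polynomial Ω →+* Ω ⊗[k] L₁ :=
    Polynomial.eval₂RingHom (Algebra.TensorProduct.includeLeftRingHom : Ω →+* Ω ⊗[k] L₁)
      (1 ⊗ₜ[k] ξ)
  have hR0C : ∀ ω : Ω, R0 (Polynomial.C ω) = ω ⊗ₜ[k] (1 : L₁) := by
    intro ω
    simp only [R0, Polynomial.coe_eval₂RingHom, Polynomial.eval₂_C]
    rfl
  have hR0X : R0 Polynomial.X = 1 ⊗ₜ[k] ξ := by
    simp only [R0, Polynomial.coe_eval₂RingHom, Polynomial.eval₂_X]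
  let aA : Algebra (Polynomial Ω) (Ω ⊗[k] L₁) := R0.toAlgebra
  have haA : ∀ p, algebraMap (Polynomial Ω) (Ω ⊗[k] L₁) p = R0 p := fun p => rfl
  have hcom : ∀ p : Polynomial Ω, Φ (R0 p) = algebraMap (Polynomial Ω) M p := by
    intro p
    have h1 : (Φ : Ω ⊗[k] L₁ →+* M).comp R0 = algebraMap (Polynomial Ω) M := by
      refine Polynomial.ringHom_ext (fun ω => ?_) ?_
      · rw [RingHom.comp_apply, hR0C, RingHom.coe_coe, hΦt, map_one, mul_one,
          IsScalarTower.algebraMap_apply Ω (Polynomial Ω) M]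
        rfl
      · rw [RingHom.comp_apply, hR0X, RingHom.coe_coe, hΦt, map_one, one_mul, hj, hX]
    exact RingHom.congr_fun h1 p
  let Ψ : Ω ⊗[k] L₁ →ₐ[Polynomial Ω] M :=
    { (Φ : Ω ⊗[k] L₁ →+* M) with commutes' := fun p => hcom p }
  have hΨ : Function.Injective Ψ := hΦ
  obtain ⟨a, ha⟩ : ∃ a : Ω ⊗[k] L₁, a = ∑ i, l (c i) ⊗ₜ[k] d i := ⟨_, rfl⟩
  have ha0 : a ≠ 0 := by rw [ha]; exact fnv_ne l hc hd
  have halg : IsAlgebraic (Polynomial Ω) a :=
    (isAlgebraic_algHom_iff Ψ hΨ).1 (Algebra.IsAlgebraic.isAlgebraic (Ψ a))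
  obtain ⟨r, hr, b, hb⟩ := halg.exists_nonzero_dvd (mem_nonZeroDivisors_of_ne_zero ha0)
  refine ⟨r, hr, fun m hm => ?_⟩
  obtain ⟨ψ, hψ⟩ : ∃ ψ : Ω ⊗[k] L₁ →ₐ[k] Ω,
      ψ = Algebra.TensorProduct.productMap (AlgHom.id k Ω) m := ⟨_, rfl⟩
  have hψt : ∀ (ω : Ω) (z : L₁), ψ (ω ⊗ₜ[k] z) = ω * m z := by
    intro ω z
    rw [hψ, Algebra.TensorProduct.productMap_apply_tmul]
    rfl
  have hψa : ψ a = 0 := by
    rw [ha, map_sum]
    simp only [hψt]
    exact hm
  have hev : ∀ p : Polynomial Ω, ψ (R0 p) = p.eval (m ξ) := by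
    intro p
    have h1 : (ψ : Ω ⊗[k] L₁ →+* Ω).comp R0 = Polynomial.evalRingHom (m ξ) := by
      refine Polynomial.ringHom_ext (fun ω => ?_) ?_
      · rw [RingHom.comp_apply, hR0C, RingHom.coe_coe, hψt, map_one, mul_one,
          Polynomial.coe_evalRingHom, Polynomial.eval_C]
      · rw [RingHom.comp_apply, hR0X, RingHom.coe_coe, hψt, one_mul,
          Polynomial.coe_evalRingHom, Polynomial.eval_X]
    exact RingHom.congr_fun h1 p
  rw [← hev, ← haA, hb, map_mul, hψa, zero_mul]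

theorem fnv {k L₁ Ω : Type} [Field k] [CharZero k] [Field L₁] [Field Ω] [Algebra k L₁] [Algebra k Ω]
    (hcl : RelCl k L₁) {ξ : L₁} (hK : FF k ξ) (l : L₁ →ₐ[k] Ω) (hΩ : Algebra.IsAlgebraic k⟮l ξ⟯ Ω)
    {n : ℕ} {c d : Fin n → L₁} (hc : LinearIndependent k c) (hd : ∃ i, d i ≠ 0) :
    ∃ N : Polynomial Ω, N ≠ 0 ∧ ∀ m : L₁ →ₐ[k] Ω, ∑ i, l (c i) * m (d i) = 0 → N.eval (m ξ) = 0 := by
  have i1 : Algebra.IsAlgebraic (Polynomial Ω) (AlgebraicClosure (RatFunc Ω)) :=
    (IsFractionRing.comap_isAlgebraic_iff (A := Polynomial Ω) (K := RatFunc Ω)).2 inferInstance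
  have hinj : Function.Injective (algebraMap (Polynomial Ω) (AlgebraicClosure (RatFunc Ω))) := by
    rw [IsScalarTower.algebraMap_eq (Polynomial Ω) (RatFunc Ω) (AlgebraicClosure (RatFunc Ω))]
    exact (algebraMap (RatFunc Ω) (AlgebraicClosure (RatFunc Ω))).injective.comp
      (IsFractionRing.injective (Polynomial Ω) (RatFunc Ω))
  exact fnv_main (M := AlgebraicClosure (RatFunc Ω)) hinj hcl hK l hΩ hc hd

end Pool.Agent.H12.GN
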