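import Pool.Agent.H12.GN.Szr
import Pool.Agent.H12.GN.Fnv

/-! # [H12 GN GFN] The link class is finite

`fne`: if the set is not empty fix `m₀` in it; `Ω` is an algebra over `k(ξ)` by the restriction of `m₀`; every `m` with `m ξ = y` agrees with `m₀` on `k(ξ)`, so it is a homomorphism of `k(ξ)`-algebras; these are finitely many (`L₁` is finite over `k(ξ)`, `Ω` a field: the instance `Finite (L₁ →ₐ[k⟮ξ⟯] Ω)` of Mathlib, `AlgHom.fintype` or
`minpoly.AlgHom.fintype`).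
`gfin`: `szero` with `E = k` (`l ξ` is transcendental over `k`): `c`, `d` with `∑ l(c_i) m(d_i) = 0` for all `m ∈ GCls ξ g l` (`GLink` is exactly the hypothesis); `fnv`: `N`; the class is contained in the union of the sets of `fne` for the finitely many roots `y` of `N`. -/

namespace Pool.Agent.H12.GN

open Pool.Agent.H8.OA Pool.Agent.H82.NS Pool.Agent.H12.OG Pool.Agent.H12.ON IntermediateField

theorem fne {k L₁ Ω : Type} [Field k] [Field L₁] [Field Ω] [Algebra k L₁] [Algebra k Ω] {ξ : L₁}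
    (hK : FF k ξ) (y : Ω) : {m : L₁ →ₐ[k] Ω | m ξ = y}.Finite := by
  classical
  rcases Set.eq_empty_or_nonempty {m : L₁ →ₐ[k] Ω | m ξ = y} with h0 | ⟨m₀, hm₀⟩
  · rw [h0]
    exact Set.finite_empty
  have hm₀' : m₀ ξ = y := hm₀
  let _ : Algebra k⟮ξ⟯ Ω := ((m₀ : L₁ →+* Ω).comp (algebraMap k⟮ξ⟯ L₁)).toAlgebra
  have halg : ∀ a : k⟮ξ⟯, algebraMap k⟮ξ⟯ Ω a = m₀ (a : L₁) := fun a => rfl
  have heq : ∀ m : L₁ →ₐ[k] Ω, m ξ = y → ∀ a ∈ k⟮ξ⟯, m a = m₀ a := by
    intro m hm a ha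
    induction ha using IntermediateField.adjoin_induction with
    | mem x hx =>
      have hx' : x = ξ := hx
      rw [hx', hm, hm₀']
    | algebraMap x => rw [m.commutes, m₀.commutes]
    | add x z _ _ h1 h2 => rw [map_add, map_add, h1, h2]
    | inv x _ h1 => rw [map_inv₀, map_inv₀, h1]
    | mul x z _ _ h1 h2 => rw [map_mul, map_mul, h1, h2]
  have hfin := hK.fin
  have hfin2 : Finite (L₁ →ₐ[k⟮ξ⟯] Ω) := inferInstance
  let Φ : {m : L₁ →ₐ[k] Ω | m ξ = y} → (L₁ →ₐ[k⟮ξ⟯] Ω) := fun m =>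
    { (m.1 : L₁ →+* Ω) with
      commutes' := fun a => (heq m.1 m.2 (a : L₁) a.2).trans (halg a).symm }
  have hinj : Function.Injective Φ := by
    intro m m' h
    apply Subtype.ext
    apply AlgHom.ext
    intro x
    exact congrArg (fun f : L₁ →ₐ[k⟮ξ⟯] Ω => f x) h
  exact Set.finite_coe_iff.1 (Finite.of_injective Φ hinj)

theorem gfin {k L₁ Ω : Type} [Field k] [CharZero k] [Field L₁] [Field Ω] [IsAlgClosed Ω] [Algebra k L₁]
    [Algebra k Ω] (hcl : RelCl k L₁) {ξ g : L₁} (hK : FF k ξ) {O : ValuationSubring L₁} (hk : Ov k O)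
    (hξ : ξ ∉ O) (hO : ∀ W : ValuationSubring L₁, Ov k W → ξ ∉ W → W = O) {P : Polynomial k}
    (hP : Irreducible P) (h3 : 3 ≤ P.natDegree) (hg : Polynomial.aeval g P ∈ O.nonunits) (l : L₁ →ₐ[k] Ω)
    (hΩ : Algebra.IsAlgebraic k⟮l ξ⟯ Ω) : (GCls ξ g l).Finite := by
  classical
  obtain ⟨n, c, d, hc, hd, -, -, hrel⟩ := szero hK hk hξ hO hP h3 hg
  obtain ⟨N, hN0, hN⟩ := fnv hcl hK l hΩ hc hd
  have htr : Transcendental k (l ξ) := fun h =>
    hK.tr ((isAlgebraic_algHom_iff l l.injective).1 h)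
  refine (Set.Finite.biUnion (N.roots.toFinset.finite_toSet) fun y _ => fne hK y).subset ?_
  intro m hm
  have hm' : GLink ξ g l m := hm
  have h1 := hrel k Ω l m htr hm'
  have h2 := hN m h1
  rw [Set.mem_iUnion₂]
  refine ⟨m ξ, ?_, rfl⟩
  rw [Finset.mem_coe, Multiset.mem_toFinset, Polynomial.mem_roots hN0]
  exact h2

end Pool.Agent.H12.GN
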