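import Mathlib

/-! # [H12 GN HCN] Half of the points of a box

`Γ' = {(a,b) ∈ box : ¬ N a b}`, `box = range (2A+1) ×ˢ range (2B+1)`. `T = {(a,b) ∈ Γ' : U a b}`: at most one `a` for each `b`, `card T ≤ 2B+1` (injection `(a,b) ↦ b`). `S = Γ' \ T`: for `(a,b) ∈ S` `N (2A-a) (2B-b)`, so the involution maps `S` injectively into `box \ Γ'`:
`card S ≤ (2A+1)(2B+1) - card Γ'`. So `2 card Γ' ≤ (2A+1)(2B+1) + 2B+1 = 2 (A+1)(2B+1)`. -/

namespace Pool.Agent.H12.GN

open Finset Classical

theorem hcn (A B : ℕ) (N U : ℕ → ℕ → Prop)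
    (h : ∀ a ≤ 2 * A, ∀ b ≤ 2 * B, N a b ∨ U a b ∨ N (2 * A - a) (2 * B - b))
    (hU : ∀ a a' b, U a b → U a' b → a = a') :
    ((range (2 * A + 1) ×ˢ range (2 * B + 1)).filter (fun p => ¬ N p.1 p.2)).card ≤ (A + 1) * (2 * B + 1) := by
  set box := range (2 * A + 1) ×ˢ range (2 * B + 1) with hbox
  have hcb : box.card = (2 * A + 1) * (2 * B + 1) := by
    rw [hbox, card_product, card_range, card_range]
  have hmem : ∀ p ∈ box, p.1 ≤ 2 * A ∧ p.2 ≤ 2 * B := by
    intro p hp
    rw [hbox, mem_product, mem_range, mem_range] at hp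
    omega
  set G := box.filter (fun p => ¬ N p.1 p.2) with hG
  have h1 : (box.filter (fun p => N p.1 p.2)).card + G.card = box.card :=
    card_filter_add_card_filter_not _
  have h2 : (G.filter (fun p => U p.1 p.2)).card + (G.filter (fun p => ¬ U p.1 p.2)).card = G.card :=
    card_filter_add_card_filter_not _
  have h3 : (G.filter (fun p => U p.1 p.2)).card ≤ 2 * B + 1 := by
    rw [← card_range (2 * B + 1)]
    refine card_le_card_of_injOn Prod.snd ?_ ?_
    · intro p hp
      rw [mem_coe, mem_filter, hG, mem_filter] at hp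
      have := hmem p hp.1.1
      rw [mem_coe, mem_range]
      omega
    · intro p hp q hq hpq
      rw [mem_coe, mem_filter] at hp hq
      have h4 : p.2 = q.2 := hpq
      have h5 := hq.2
      rw [← h4] at h5
      exact Prod.ext (hU _ _ _ hp.2 h5) h4
  have h4 : (G.filter (fun p => ¬ U p.1 p.2)).card ≤ (box.filter (fun p => N p.1 p.2)).card := by
    refine card_le_card_of_injOn (fun p => (2 * A - p.1, 2 * B - p.2)) ?_ ?_
    · intro p hp
      rw [mem_coe, mem_filter, hG, mem_filter] at hp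
      obtain ⟨⟨hp1, hp2⟩, hp3⟩ := hp
      obtain ⟨ha, hb⟩ := hmem p hp1
      rw [mem_coe, mem_filter, hbox, mem_product, mem_range, mem_range]
      refine ⟨⟨?_, ?_⟩, ?_⟩
      · show 2 * A - p.1 < 2 * A + 1
        omega
      · show 2 * B - p.2 < 2 * B + 1
        omega
      · exact ((h p.1 ha p.2 hb).resolve_left hp2).resolve_left hp3
    · intro p hp q hq hpq
      rw [mem_coe, mem_filter, hG, mem_filter] at hp hq
      have hp' := hmem p hp.1.1
      have hq' := hmem q hq.1.1
      have e1 := congrArg Prod.fst hpq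
      have e2 := congrArg Prod.snd hpq
      simp only at e1 e2
      exact Prod.ext (by omega) (by omega)
  rw [hcb] at h1
  nlinarith

end Pool.Agent.H12.GN
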