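import Pool.Agent.H85.LK.Fdi
import Pool.Agent.H85.LK.Unf

/-! # [H12 GN KBS] A basis of the residue field over the subfield `K = k[T]/P`

Call `z : Fin s → L` good if all `z i ∈ O` and: `∑_i A_i(g) z_i ∈ m` (`A_i ∈ k[T]`) implies `P ∣ A_i` for all `i`. The empty family is good. If `z` is good then the `r s` elements `g^l z_i`, `l < r = natDegree P`, are independent over `k` modulo `m`
(`A_i = ∑_l c_(i,l) T^l` has degree `< r`, so `P ∣ A_i` means `A_i = 0`), so `e (r s) ≤ [L : k(x)]` by `fund` (for the family indexed by `Fin (r s)`, `finProdFinEquiv`). As `e, r ≥ 1`: `s ≤ [L:k(x)]`, and there is a good family with the largest `s`. Let `a ∈ O` and suppose that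
`a - ∑ A_i(g) z_i ∉ m` for all `A`. Then `(z,a)` (`Fin.snoc z a`) is good: let `∑ A_i(g) z_i + B(g) a ∈ m`. If `P ∤ B` then `U B + V P = 1` (`P` irreducible), `P(g) ∈ m`: `U(g) B(g) - 1 ∈ m`, and `a - ∑ (-U A_i)(g) z_i ∈ m`, contradiction. So `P ∣ B`, `B(g) ∈ m`, `∑ A_i(g) z_i ∈ m`, `P ∣ A_i`.
This contradicts the choice of `s`. (`A(g) ∈ O` for `A ∈ k[T]`, `g ∈ O`.) -/

namespace Pool.Agent.H12.GN

open Pool.Agent.H82.NS IntermediateField

private theorem kb_add {L : Type} [Field L] {O : ValuationSubring L} {a b : L} (ha : a ∈ O.nonunits)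
    (hb : b ∈ O.nonunits) : a + b ∈ O.nonunits := by
  rw [ValuationSubring.mem_nonunits_iff] at ha hb ⊢
  exact (Valuation.map_add _ _ _).trans_lt (max_lt ha hb)

private theorem kb_neg {L : Type} [Field L] {O : ValuationSubring L} {a : L} (ha : a ∈ O.nonunits) :
    -a ∈ O.nonunits := by
  rw [ValuationSubring.mem_nonunits_iff] at ha ⊢
  rwa [Valuation.map_neg]

private theorem kb_mul {L : Type} [Field L] {O : ValuationSubring L} {a b : L} (ha : a ∈ O)
    (hb : b ∈ O.nonunits) : a * b ∈ O.nonunits := by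
  rw [ValuationSubring.mem_nonunits_iff] at hb ⊢
  rw [map_mul]
  have h1 : O.valuation a ≤ 1 := (O.valuation_le_one_iff _).2 ha
  calc O.valuation a * O.valuation b ≤ 1 * O.valuation b := mul_le_mul' h1 le_rfl
    _ = O.valuation b := one_mul _
    _ < 1 := hb

private theorem kb_aev {k L : Type} [Field k] [Field L] [Algebra k L] {x : L} {O : ValuationSubring L}
    (hO : Inf k x O) {g : L} (hg : g ∈ O) (A : Polynomial k) : Polynomial.aeval g A ∈ O := by
  rw [Polynomial.aeval_eq_sum_range]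
  refine sum_mem fun i _ => ?_
  rw [Algebra.smul_def]
  exact mul_mem (hO.base _) (pow_mem hg _)

private def kbGood {k L : Type} [Field k] [Field L] [Algebra k L] (O : ValuationSubring L) (P : Polynomial k) (g : L)
    {s : ℕ} (z : Fin s → L) : Prop :=
  (∀ i, z i ∈ O) ∧ ∀ A : Fin s → Polynomial k, ∑ i, Polynomial.aeval g (A i) * z i ∈ O.nonunits → ∀ i, P ∣ A i

private theorem kb_bd {k L : Type} [Field k] [Field L] [Algebra k L] {x : L} (hK : FF k x) {O : ValuationSubring L}
    (hO : Inf k x O) {π : L} {e : ℕ} (hπ0 : π ≠ 0) (hπ : π ∈ O.nonunits) (he : 1 ≤ e)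
    (hx1 : x⁻¹ / π ^ e ∈ O) (hx2 : π ^ e * x ∈ O) {P : Polynomial k} {g : L} (hg : g ∈ O)
    {s : ℕ} {z : Fin s → L} (hz : kbGood O P g z) :
    e * (P.natDegree * s) ≤ Module.finrank k⟮x⟯ L := by
  classical
  refine Pool.Agent.H85.LK.fund hK hO hπ0 hπ he hx1 hx2
    (z := fun q => g ^ ((finProdFinEquiv.symm q).1 : ℕ) * z (finProdFinEquiv.symm q).2) ?_ ?_
  · intro q
    exact mul_mem (pow_mem hg _) (hz.1 _)
  · intro c hc
    obtain ⟨A, hA⟩ : ∃ A : Fin s → Polynomial k, A = fun i =>
        ∑ l : Fin P.natDegree, Polynomial.C (c (finProdFinEquiv (l, i))) * Polynomial.X ^ (l : ℕ) := ⟨_, rfl⟩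
    have h1 : ∑ i, Polynomial.aeval g (A i) * z i ∈ O.nonunits := by
      convert hc using 1
      rw [← finProdFinEquiv.sum_comp, Fintype.sum_prod_type, Finset.sum_comm]
      refine Finset.sum_congr rfl fun i _ => ?_
      rw [hA]
      dsimp only
      rw [map_sum, Finset.sum_mul]
      refine Finset.sum_congr rfl fun l _ => ?_
      rw [Equiv.symm_apply_apply]
      dsimp only
      rw [map_mul, map_pow, Polynomial.aeval_C, Polynomial.aeval_X, mul_assoc]
    have h2 := hz.2 A h1
    have h3 : ∀ i, A i = 0 := by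
      intro i
      by_contra hne
      have h4 := Polynomial.degree_le_of_dvd (h2 i) hne
      have h5 : (A i).degree < (P.natDegree : WithBot ℕ) := by
        rw [hA]
        exact Polynomial.degree_sum_fin_lt _
      by_cases hP0 : P = 0
      · exact hne (zero_dvd_iff.1 (hP0 ▸ h2 i))
      · rw [Polynomial.degree_eq_natDegree hP0] at h4
        exact absurd (lt_of_le_of_lt h4 h5) (lt_irrefl _)
    funext q
    obtain ⟨⟨l, i⟩, rfl⟩ := finProdFinEquiv.surjective q
    have h4 := congrArg (fun p => Polynomial.coeff p (l : ℕ)) (h3 i)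
    rw [hA] at h4
    dsimp only at h4
    rw [Polynomial.finsetSum_coeff, Polynomial.coeff_zero, Finset.sum_eq_single l] at h4
    · rwa [Polynomial.coeff_C_mul, Polynomial.coeff_X_pow_self, mul_one] at h4
    · intro l' _ hl
      rw [Polynomial.coeff_C_mul, Polynomial.coeff_X_pow, if_neg, mul_zero]
      intro h
      exact hl (Fin.ext h.symm)
    · intro h
      exact absurd (Finset.mem_univ l) h

private theorem kb_step {k L : Type} [Field k] [Field L] [Algebra k L] {x : L} {O : ValuationSubring L}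
    (hO : Inf k x O) {P : Polynomial k} (hP : Irreducible P) {g : L} (hg : g ∈ O)
    (hPg : Polynomial.aeval g P ∈ O.nonunits) {s : ℕ} {z : Fin s → L} (hz : kbGood O P g z) {a : L} (ha : a ∈ O)
    (hn : ∀ A : Fin s → Polynomial k, a - ∑ i, Polynomial.aeval g (A i) * z i ∉ O.nonunits) :
    kbGood O P g (Fin.snoc z a : Fin (s + 1) → L) := by
  refine ⟨fun i => ?_, fun A hA => ?_⟩
  · refine Fin.lastCases ?_ (fun j => ?_) i
    · rw [Fin.snoc_last]
      exact ha
    · rw [Fin.snoc_castSucc]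
      exact hz.1 j
  · rw [Fin.sum_univ_castSucc] at hA
    simp only [Fin.snoc_castSucc, Fin.snoc_last] at hA
    have h1 : P ∣ A (Fin.last s) := by
      by_contra hnd
      obtain ⟨U, V, hUV⟩ := (Irreducible.coprime_iff_not_dvd hP).2 hnd
      apply hn fun i => -(V * A i.castSucc)
      have h2 := kb_mul (kb_aev hO hg V) hA
      have h3 := kb_mul (mul_mem (kb_aev hO hg U) ha) hPg
      have h4 := congrArg (Polynomial.aeval g) hUV
      rw [map_add, map_mul, map_mul, map_one] at h4
      have h5 := kb_add h2 h3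
      convert h5 using 1
      have h6 : ∑ i : Fin s, Polynomial.aeval g (-(V * A i.castSucc)) * z i =
          - (Polynomial.aeval g V * ∑ i : Fin s, Polynomial.aeval g (A i.castSucc) * z i) := by
        rw [Finset.mul_sum, ← Finset.sum_neg_distrib]
        refine Finset.sum_congr rfl fun i _ => ?_
        rw [map_neg, map_mul]
        ring
      rw [h6]
      linear_combination (-a) * h4
    have h2 : ∑ i : Fin s, Polynomial.aeval g (A i.castSucc) * z i ∈ O.nonunits := by
      obtain ⟨Q, hQ⟩ := h1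
      have h3 := kb_mul (mul_mem (kb_aev hO hg Q) ha) hPg
      have h4 := kb_add hA (kb_neg h3)
      convert h4 using 1
      rw [hQ, map_mul]
      ring
    have h3 := hz.2 (fun i => A i.castSucc) h2
    intro i
    exact Fin.lastCases h1 h3 i

theorem kbs {k L : Type} [Field k] [Field L] [Algebra k L] {x : L} (hK : FF k x) {O : ValuationSubring L}
    (hO : Inf k x O) {π : L} {e : ℕ} (hπ0 : π ≠ 0) (hπ : π ∈ O.nonunits) (he : 1 ≤ e)
    (hx1 : x⁻¹ / π ^ e ∈ O) (hx2 : π ^ e * x ∈ O) {P : Polynomial k} (hP : Irreducible P) {g : L} (hg : g ∈ O)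
    (hPg : Polynomial.aeval g P ∈ O.nonunits) : ∃ (s : ℕ) (z : Fin s → L), (∀ i, z i ∈ O) ∧
      e * (P.natDegree * s) ≤ Module.finrank k⟮x⟯ L ∧
      ∀ a ∈ O, ∃ A : Fin s → Polynomial k, a - ∑ i, Polynomial.aeval g (A i) * z i ∈ O.nonunits := by
  by_contra hno
  push Not at hno
  have key : ∀ n : ℕ, ∃ z : Fin n → L, kbGood O P g z := by
    intro n
    induction n with
    | zero => exact ⟨fun i => i.elim0, fun i => i.elim0, fun _ _ i => i.elim0⟩
    | succ n ih =>
      obtain ⟨z, hz⟩ := ih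
      obtain ⟨a, ha, hn⟩ := hno n z hz.1 (kb_bd hK hO hπ0 hπ he hx1 hx2 hg hz)
      exact ⟨_, kb_step hO hP hg hPg hz ha hn⟩
  obtain ⟨z, hz⟩ := key (Module.finrank k⟮x⟯ L + 1)
  have h1 := kb_bd hK hO hπ0 hπ he hx1 hx2 hg hz
  have h2 : 1 ≤ P.natDegree := hP.natDegree_pos
  have h3 : 1 * (1 * (Module.finrank k⟮x⟯ L + 1)) ≤ e * (P.natDegree * (Module.finrank k⟮x⟯ L + 1)) :=
    Nat.mul_le_mul he (Nat.mul_le_mul_right _ h2)
  omega

end Pool.Agent.H12.GN
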