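import Pool.Agent.H12.GN.Kbs
import Pool.Agent.H12.GN.Exd
import Pool.Agent.H12.GN.Fam
import Pool.Agent.H85.LK.Nwt

/-! # [H12 GN PLS] All data of a place at infinity with `K` in its residue field

`unif` (H85/LK/Unf): `π`, `e`. `kbs`: `s`, `z`; `s ≥ 1` (for `s = 0` the spanning property at `a = 1` says `1 ∈ O.nonunits`). `fam`: `c`; `e (r s) (A - c) ≤ [L:k(x)] (A - c) ≤ e m`, divide by `e ≥ 1`. `nwt` (H85/LK/Nwt) for `M`: `g'`; `spc`: spanning property for `g'`; `exd`.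
(`g ∈ O`: `gO`; if `g ∉ O` then `g⁻¹ ∈ O.nonunits` and `P(g) g^(-r) = lead + ∑_{i<r} p_i (g⁻¹)^(r-i)` is a unit, so `P(g) ∉ O`; `r ≥ 1`.) -/

namespace Pool.Agent.H12.GN

open Pool.Agent.H12.ON Pool.Agent.H12.OG Pool.Agent.H82.NS IntermediateField Finset

/-- the data of a place at infinity `O` of `L`, uniformizer `π`, ramification `e`, basis `z` of the residue field over `k[T]/P` -/
structure Pls (k : Type) {L : Type} [Field k] [Field L] [Algebra k L] (x : L) (O : ValuationSubring L)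
    (P : Polynomial k) (g π : L) (e s : ℕ) (z : Fin s → L) (c : ℕ) : Prop where
  π0 : π ≠ 0
  πm : π ∈ O.nonunits
  e1 : 1 ≤ e
  s1 : 1 ≤ s
  x1 : x⁻¹ / π ^ e ∈ O
  x2 : π ^ e * x ∈ O
  zO : ∀ i, z i ∈ O
  fam : ∀ A : ℕ, ∃ (m : ℕ) (q : Fin m → L), LinearIndependent k q ∧ (∀ i, IsInt k x (q i)) ∧
    (∀ i, π ^ A * q i ∈ O) ∧ P.natDegree * s * (A - c) ≤ m
  exp : ∀ M : ℕ, ∃ g' ∈ O, g' - g ∈ O.nonunits ∧ Polynomial.aeval g' P / π ^ M ∈ O ∧
    ∀ a ∈ O, ∃ (B : Fin s → ℕ → Polynomial k) (r : L), r ∈ O ∧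
      a = (∑ i, ∑ j ∈ range M, Polynomial.aeval g' (B i j) * z i * π ^ j) + r * π ^ M

theorem gO {k L : Type} [Field k] [Field L] [Algebra k L] {O : ValuationSubring L} (hO : Ov k O)
    {P : Polynomial k} (hP : Irreducible P) {g : L} (hPg : Polynomial.aeval g P ∈ O.nonunits) : g ∈ O := by
  classical
  have hιex : ∃ ι : k →+* O, ∀ c, ((ι c : O) : L) = algebraMap k L c :=
    ⟨(algebraMap k L).codRestrict O.toSubring hO, fun c => rfl⟩
  obtain ⟨ι, hι⟩ := hιex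
  have hlc : P.leadingCoeff ≠ 0 := Polynomial.leadingCoeff_ne_zero.2 hP.ne_zero
  obtain ⟨Q, hQ⟩ : ∃ Q : Polynomial k, Q = P * Polynomial.C P.leadingCoeff⁻¹ := ⟨_, rfl⟩
  have hQm : Q.Monic := by
    rw [hQ]
    exact Polynomial.monic_mul_leadingCoeff_inv hP.ne_zero
  have hQd : Q.natDegree = P.natDegree := by
    rw [hQ]
    exact Polynomial.natDegree_mul_C (inv_ne_zero hlc)
  have hev : Polynomial.aeval g (Q.map ι) = Polynomial.aeval g Q := by
    rw [Polynomial.aeval_def, Polynomial.eval₂_map, Polynomial.aeval_def]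
    congr 1
    exact RingHom.ext fun c => hι c
  have hmem : Polynomial.aeval g Q ∈ O := by
    rw [hQ, map_mul, Polynomial.aeval_C]
    exact O.mul_mem _ _ (O.nonunits_subset hPg) (hO _)
  have hint : IsIntegral O (Polynomial.aeval g (Q.map ι)) := by
    rw [hev]
    exact isIntegral_algebraMap (R := O) (A := L) (x := ⟨Polynomial.aeval g Q, hmem⟩)
  have hg : IsIntegral O g := by
    refine IsIntegral.of_aeval_monic (hQm.map ι) ?_ hint
    rw [hQm.natDegree_map, hQd]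
    exact hP.natDegree_pos.ne'
  obtain ⟨y, hy⟩ := (IsIntegrallyClosed.isIntegral_iff (R := O) (K := L)).1 hg
  rw [← hy]
  exact y.2

theorem pls {k L : Type} [Field k] [CharZero k] [Field L] [Algebra k L] {x : L} (hK : FF k x)
    {O : ValuationSubring L} (hO : Inf k x O) {P : Polynomial k} (hP : Irreducible P) {g : L}
    (hPg : Polynomial.aeval g P ∈ O.nonunits) :
    ∃ (π : L) (e s : ℕ) (z : Fin s → L) (c : ℕ), Pls k x O P g π e s z c := by
  obtain ⟨π, e, π0, πm, huni, e1, x1, x2⟩ := Pool.Agent.H85.LK.unif hK hO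
  have hg : g ∈ O := gO hO.base hP hPg
  obtain ⟨s, z, zO, hes, hsp⟩ := kbs hK hO π0 πm e1 x1 x2 hP hg hPg
  obtain ⟨c, hc⟩ := fam hK hO π0 πm e1 x1 x2
  refine ⟨π, e, s, z, c, ⟨π0, πm, e1, ?_, x1, x2, zO, fun A => ?_, fun M => ?_⟩⟩
  · by_contra hs
    have hs0 : s = 0 := by omega
    subst hs0
    obtain ⟨A, hA⟩ := hsp 1 O.one_mem
    rw [Finset.univ_eq_empty, Finset.sum_empty, sub_zero] at hA
    rw [ValuationSubring.mem_nonunits_iff, map_one] at hA
    exact lt_irrefl _ hA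
  · obtain ⟨m, q, h1, h2, h3, h4⟩ := hc A
    refine ⟨m, q, h1, h2, h3, ?_⟩
    refine Nat.le_of_mul_le_mul_left ?_ e1
    calc e * (P.natDegree * s * (A - c)) = e * (P.natDegree * s) * (A - c) := by ring
      _ ≤ Module.finrank k⟮x⟯ L * (A - c) := Nat.mul_le_mul_right _ hes
      _ ≤ e * m := h4
  · obtain ⟨g', h1, h2, h3⟩ := Pool.Agent.H85.LK.nwt hO.base π0 πm huni hg hP hPg M
    exact ⟨g', h1, h2, h3, fun a ha => exd π0 huni (spc hO.base zO hg h1 h2 hsp) M ha⟩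

end Pool.Agent.H12.GN
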