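import Pool.Agent.H12.GN.Exx
import Pool.Agent.H12.GN.Lal
import Pool.Agent.H12.ON.Val

/-! # [H12 GN SZR] A relation between two linked points, also over a larger constant field

`pls`: `π, e, s, z, c0`; `r = natDegree P ≥ 3`. `A = 6 c0 + 4`, `Γ = {(a,b) : a + b ≤ 2A}`, `card Γ = (2A+1)(A+1)` (`≤` suffices; e.g. `Γ = (range (2A+1)).sigma`, or the image of `Finset.antidiagonal` for `n ≤ 2A`: `∑ (n+1)`). `fam A`: `q`, `m ≥ r s (A - c0)`. `Pls.exx` with `M = 2A+1`: `g'`, `B`.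
`(2A+1)(A+1) < 3 (A-c0)^2` (`72c²+114c+45 < 75c²+120c+48`), so `card Γ · s · s · r < m · m`: `lal` for `J = Γ × Fin s × Fin s`: `σ`. `c i = q i`, `d i = ∑_v σ i v • q v`; `d i ≠ 0` for the `i` with `σ i v ≠ 0` (linear independence).
Now `E, Ω, l, m'`. `S = ∑ l(c_i) m'(d_i) = ∑∑ σ u v l(q_u) m'(q_v)`. `all_zero` (ON/Val.lean) for the field `E` and `x = l ξ`. Let `V` be over `E` (so over `k`). If `l ξ ∈ V`: `m' ξ ∈ V`, and `l z ∈ V`, `m' z ∈ V` for `z` integral over `k[ξ]` (`V` is integrally closed, see `ot_mem` in H82/NS/OneT or `gs_val` in OG/Gsy), so `S ∈ V`.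
If `l ξ ∉ V`: `V.comap l` and `V.comap m'` are valuation rings over `k` without `ξ`: both are `O` (`hO`). So `l`, `m'` map `O` to `V` and `O.nonunits` to `V.nonunits` (`mem_nonunits_iff_or`). `p₁ = l π`, `p₂ = m' π`: `(π^e ξ)^(±1) ∈ O` (`x1`, `x2`), `l ξ/m' ξ`, `m' ξ/l ξ ∈ V`, so `(p₁/p₂)^e`, `(p₂/p₁)^e ∈ V`, so `p₁/p₂`, `p₂/p₁ ∈ V` (`V` integrally
closed, `e ≥ 1`). For `a + b ≥ 2A+1`: `p₁^a p₂^b/(p₁^A p₂^A) = (p₂/p₁)^b (p₁/p₂)^A p₁^(a+b-2A) ∈ V.nonunits`. `szv` with `A₁ = A₂ = A`, `M₁ = M₂ = 2A+1`: `S ∈ V.nonunits ⊆ V`. -/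

namespace Pool.Agent.H12.GN

open Pool.Agent.H12.ON Pool.Agent.H12.OG Pool.Agent.H82.NS Finset

private theorem sz_val {k L₁ Ω : Type} [Field k] [Field L₁] [Field Ω] [Algebra k L₁] [Algebra k Ω] {ξ : L₁}
    (m : L₁ →ₐ[k] Ω) {V : ValuationSubring Ω} (hV : Ov k V) (hm : m ξ ∈ V) {z : L₁} (hz : IsInt k ξ z) :
    m z ∈ V := by
  have h1 : ∀ a ∈ Algebra.adjoin k {ξ}, m a ∈ V := by
    intro a ha
    induction ha using Algebra.adjoin_induction with
    | mem x hx =>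
      rw [Set.mem_singleton_iff.1 hx]
      exact hm
    | algebraMap r =>
      rw [m.commutes]
      exact hV r
    | add x y _ _ hx hy =>
      rw [map_add]
      exact add_mem hx hy
    | mul x y _ _ hx hy =>
      rw [map_mul]
      exact mul_mem hx hy
  let φ : Algebra.adjoin k {ξ} →+* V :=
    ((m : L₁ →+* Ω).comp (algebraMap (Algebra.adjoin k {ξ}) L₁)).codRestrict V.toSubring
      (fun a => h1 a.1 a.2)
  have h2 : IsIntegral V (m z) := by
    refine IsIntegral.map_of_comp_eq φ (m : L₁ →+* Ω) ?_ hz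
    ext a
    rfl
  obtain ⟨y, hy⟩ := IsIntegrallyClosed.isIntegral_iff.1 h2
  rw [← hy]
  exact y.2

private theorem sz_nu {Ω : Type} [Field Ω] {V : ValuationSubring Ω} {x y : Ω} (hx : x ∈ V) (hy : y ∈ V.nonunits) :
    x * y ∈ V.nonunits := by
  rw [ValuationSubring.mem_nonunits_iff] at hy ⊢
  rw [map_mul]
  have h1 : V.valuation x ≤ 1 := (V.valuation_le_one_iff x).2 hx
  exact lt_of_le_of_lt (mul_le_of_le_one_left' h1) hy

private theorem sz_pow {Ω : Type} [Field Ω] {V : ValuationSubring Ω} {x : Ω} {e : ℕ} (he : 1 ≤ e) (hx : x ^ e ∈ V) :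
    x ∈ V := by
  rcases V.mem_or_inv_mem x with h | h
  · exact h
  · by_cases h0 : x = 0
    · rw [h0]
      exact V.zero_mem
    · have h1 : x = x ^ e * x⁻¹ ^ (e - 1) := by
        obtain ⟨f, rfl⟩ : ∃ f, e = f + 1 := ⟨e - 1, by omega⟩
        rw [Nat.add_sub_cancel, pow_succ, inv_pow]
        field_simp
      rw [h1]
      exact V.mul_mem _ _ hx (V.pow_mem h _)

private theorem sz_gam (N : ℕ) : 2 * ∑ n ∈ range N, (n + 1) = N * (N + 1) := by
  induction N with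
  | zero => simp
  | succ N ih =>
    rw [Finset.sum_range_succ, Nat.mul_add, ih]
    ring

private theorem sz_card (A : ℕ) :
    ((range (2 * A + 1)).biUnion (fun n => antidiagonal n)).card ≤ (2 * A + 1) * (A + 1) := by
  refine card_biUnion_le.trans ?_
  have h1 : ∑ n ∈ range (2 * A + 1), (antidiagonal n).card = ∑ n ∈ range (2 * A + 1), (n + 1) :=
    Finset.sum_congr rfl fun n _ => Finset.Nat.card_antidiagonal n
  rw [h1]
  have h2 := sz_gam (2 * A + 1)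
  have h3 : (2 * A + 1) * (2 * A + 1 + 1) = 2 * ((2 * A + 1) * (A + 1)) := by ring
  omega

private theorem sz_num {r s c m γ : ℕ} (hr : 3 ≤ r) (hs : 1 ≤ s) (hm : r * s * (6 * c + 4 - c) ≤ m)
    (hγ : γ ≤ (2 * (6 * c + 4) + 1) * (6 * c + 4 + 1)) : γ * (s * s) * r < m * m := by
  have h0 : 6 * c + 4 - c = 5 * c + 4 := by omega
  rw [h0] at hm
  have h1 : (r * s * (5 * c + 4)) * (r * s * (5 * c + 4)) ≤ m * m := Nat.mul_le_mul hm hm
  have hrs : 0 < s * s * r := by positivity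
  have h2 : γ < 3 * ((5 * c + 4) * (5 * c + 4)) := by
    refine lt_of_le_of_lt hγ ?_
    have e1 : (2 * (6 * c + 4) + 1) * (6 * c + 4 + 1) = 72 * (c * c) + 114 * c + 45 := by ring
    have e2 : 3 * ((5 * c + 4) * (5 * c + 4)) = 75 * (c * c) + 120 * c + 48 := by ring
    rw [e1, e2]
    have := Nat.zero_le (c * c)
    omega
  calc γ * (s * s) * r = γ * (s * s * r) := by ring
    _ < 3 * ((5 * c + 4) * (5 * c + 4)) * (s * s * r) := Nat.mul_lt_mul_of_pos_right h2 hrs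
    _ ≤ r * ((5 * c + 4) * (5 * c + 4)) * (s * s * r) := by gcongr
    _ = (r * s * (5 * c + 4)) * (r * s * (5 * c + 4)) := by ring
    _ ≤ m * m := h1

/-- at a place at infinity -/
private theorem sz_inf {k L₁ : Type} [Field k] [CharZero k] [Field L₁] [Algebra k L₁] {ξ g : L₁}
    {O : ValuationSubring L₁} (hO : ∀ W : ValuationSubring L₁, Ov k W → ξ ∉ W → W = O) {P : Polynomial k}
    (hP : Irreducible P) {π : L₁} {e s : ℕ} {z : Fin s → L₁} {c0 : ℕ} (h : Pls k ξ O P g π e s z c0)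
    {A m : ℕ} {q : Fin m → L₁} {g' : L₁} {B : Fin m → Fin s → ℕ → Polynomial k}
    (hE : Exx k O P g π z A (2 * A + 1) q g' B) {σ : Fin m → Fin m → k}
    (hσ : ∀ ab ∈ (range (2 * A + 1)).biUnion (fun n => antidiagonal n), ∀ i j,
      P ∣ ∑ u, ∑ v, Polynomial.C (σ u v) * (B u i ab.1 * B v j ab.2))
    {Ω : Type} [Field Ω] [Algebra k Ω] (l m' : L₁ →ₐ[k] Ω) {V : ValuationSubring Ω} (hV : Ov k V)
    (hl : l ξ ∉ V) (hm : m' ξ ∉ V) (h1 : l ξ / m' ξ ∈ V) (h2 : m' ξ / l ξ ∈ V) (hg : l g - m' g ∈ V.nonunits) :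
    ∑ u, ∑ v, algebraMap k Ω (σ u v) * l (q u) * m' (q v) ∈ V.nonunits := by
  have key : ∀ n : L₁ →ₐ[k] Ω, n ξ ∉ V → ∀ w, w ∈ O ↔ n w ∈ V := by
    intro n hn w
    have hW : V.comap (n : L₁ →+* Ω) = O := by
      apply hO
      · intro a
        rw [ValuationSubring.mem_comap]
        show n (algebraMap k L₁ a) ∈ V
        rw [n.commutes]
        exact hV a
      · rw [ValuationSubring.mem_comap]
        exact hn
    rw [← hW, ValuationSubring.mem_comap]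
    rfl
  have keyn : ∀ n : L₁ →ₐ[k] Ω, n ξ ∉ V → ∀ w ∈ O.nonunits, n w ∈ V.nonunits := by
    intro n hn w hw
    rw [ValuationSubring.mem_nonunits_iff_or] at hw ⊢
    rcases hw with h0 | h0
    · left
      rw [h0, map_zero]
    · right
      rw [← map_inv₀, ← key n hn]
      exact h0
  have hl0 : l ξ ≠ 0 := fun h0 => hl (by rw [h0]; exact V.zero_mem)
  have hm0 : m' ξ ≠ 0 := fun h0 => hm (by rw [h0]; exact V.zero_mem)
  have p1 : l π ≠ 0 := (map_ne_zero l).2 h.π0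
  have p2 : m' π ≠ 0 := (map_ne_zero m').2 h.π0
  have hp1 : l π ∈ V.nonunits := keyn l hl _ h.πm
  have hp2 : m' π ∈ V.nonunits := keyn m' hm _ h.πm
  have a1 : (l π) ^ e * l ξ ∈ V := by
    rw [← map_pow, ← map_mul, ← key l hl]
    exact h.x2
  have a2 : (m' π) ^ e * m' ξ ∈ V := by
    rw [← map_pow, ← map_mul, ← key m' hm]
    exact h.x2
  have b1 : (l ξ)⁻¹ / (l π) ^ e ∈ V := by
    rw [← map_pow, ← map_inv₀, ← map_div₀, ← key l hl]
    exact h.x1
  have b2 : (m' ξ)⁻¹ / (m' π) ^ e ∈ V := by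
    rw [← map_pow, ← map_inv₀, ← map_div₀, ← key m' hm]
    exact h.x1
  have q12 : l π / m' π ∈ V := by
    apply sz_pow h.e1
    have e1 : (l π / m' π) ^ e = ((l π) ^ e * l ξ) * (m' ξ / l ξ) * ((m' ξ)⁻¹ / (m' π) ^ e) := by
      rw [div_pow]
      field_simp
    rw [e1]
    exact V.mul_mem _ _ (V.mul_mem _ _ a1 h2) b2
  have q21 : m' π / l π ∈ V := by
    apply sz_pow h.e1
    have e1 : (m' π / l π) ^ e = ((m' π) ^ e * m' ξ) * (l ξ / m' ξ) * ((l ξ)⁻¹ / (l π) ^ e) := by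
      rw [div_pow]
      field_simp
    rw [e1]
    exact V.mul_mem _ _ (V.mul_mem _ _ a2 h1) b1
  have hab : ∀ a b : ℕ, 2 * A + 1 ≤ a + b →
      (l π) ^ a * (m' π) ^ b / ((l π) ^ A * (m' π) ^ A) ∈ V.nonunits := by
    intro a b hab
    obtain ⟨t, ht⟩ : ∃ t, a + b = 2 * A + t + 1 := ⟨a + b - (2 * A + 1), by omega⟩
    have e1 : (l π) ^ a * (m' π) ^ b / ((l π) ^ A * (m' π) ^ A) =
        ((m' π / l π) ^ b * (l π / m' π) ^ A * (l π) ^ t) * l π := by
      have e2 : (l π) ^ a * (l π) ^ b = (l π) ^ A * (l π) ^ A * (l π) ^ t * l π := by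
        rw [← pow_add, ht, pow_succ, pow_add, two_mul, pow_add]
      rw [div_pow, div_pow, div_eq_iff (by positivity)]
      have hb : (l π) ^ b ≠ 0 := pow_ne_zero _ p1
      have hA : (m' π) ^ A ≠ 0 := pow_ne_zero _ p2
      field_simp
      calc (l π) ^ a * (l π) ^ b = (l π) ^ A * (l π) ^ A * (l π) ^ t * l π := e2
        _ = _ := by ring
    rw [e1]
    exact sz_nu (V.mul_mem _ _ (V.mul_mem _ _ (V.pow_mem q21 _) (V.pow_mem q12 _))
      (V.pow_mem (ValuationSubring.nonunits_subset hp1) _)) hp1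
  refine szv l m' hV (fun w hw => (key l hl w).1 hw) (fun w hw => (key m' hm w).1 hw) (keyn l hl) (keyn m' hm)
    hP hg hE hE ?_ ?_ ?_ hσ
  · have h3 := hab (2 * A + 1) 0 (by omega)
    rwa [pow_zero, mul_one] at h3
  · have h3 := hab 0 (2 * A + 1) (by omega)
    rwa [pow_zero, one_mul] at h3
  · intro a b hab'
    apply hab
    by_contra hcon
    apply hab'
    rw [Finset.mem_biUnion]
    exact ⟨a + b, Finset.mem_range.2 (by omega), Finset.HasAntidiagonal.mem_antidiagonal.2 rfl⟩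

theorem szero {k L₁ : Type} [Field k] [CharZero k] [Field L₁] [Algebra k L₁] {ξ g : L₁} (hK : FF k ξ)
    {O : ValuationSubring L₁} (hk : Ov k O) (hξ : ξ ∉ O)
    (hO : ∀ W : ValuationSubring L₁, Ov k W → ξ ∉ W → W = O) {P : Polynomial k} (hP : Irreducible P)
    (h3 : 3 ≤ P.natDegree) (hg : Polynomial.aeval g P ∈ O.nonunits) :
    ∃ (n : ℕ) (c d : Fin n → L₁), LinearIndependent k c ∧ (∃ i, d i ≠ 0) ∧ (∀ i, IsInt k ξ (c i)) ∧
      (∀ i, IsInt k ξ (d i)) ∧ ∀ (E Ω : Type) [Field E] [Field Ω] [Algebra k E] [Algebra E Ω] [Algebra k Ω]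
        [IsScalarTower k E Ω] (l m : L₁ →ₐ[k] Ω), Transcendental E (l ξ) →
        (∀ V : ValuationSubring Ω, Ov E V → (l ξ ∈ V ↔ m ξ ∈ V) ∧
          (l ξ ∉ V → l ξ / m ξ ∈ V ∧ m ξ / l ξ ∈ V ∧ l g - m g ∈ V.nonunits)) →
        ∑ i, l (c i) * m (d i) = 0 := by
  classical
  obtain ⟨π, e, s, z, c0, h⟩ := pls hK ⟨hk, hξ⟩ hP hg
  obtain ⟨A, hA⟩ : ∃ A, A = 6 * c0 + 4 := ⟨_, rfl⟩
  obtain ⟨m, q, hq1, hq2, hq3, hq4⟩ := h.fam A
  obtain ⟨g', B, hE⟩ := h.exx A (2 * A + 1) hq3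
  obtain ⟨Γ, hΓ⟩ : ∃ Γ : Finset (ℕ × ℕ), Γ = (range (2 * A + 1)).biUnion (fun n => antidiagonal n) := ⟨_, rfl⟩
  have hcard : Fintype.card ({p // p ∈ Γ} × Fin s × Fin s) * P.natDegree < m * m := by
    rw [Fintype.card_prod, Fintype.card_prod, Fintype.card_fin, Fintype.card_coe]
    rw [hA] at hq4
    refine sz_num h3 h.s1 hq4 ?_
    rw [hΓ, hA]
    exact sz_card _
  obtain ⟨σ, ⟨u0, v0, hσ0⟩, hσ⟩ := lal hP.ne_zero
    (fun (j : {p // p ∈ Γ} × Fin s × Fin s) (u v : Fin m) => B u j.2.1 j.1.1.1 * B v j.2.2 j.1.1.2) hcard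
  have hσ' : ∀ ab ∈ (range (2 * A + 1)).biUnion (fun n => antidiagonal n), ∀ i j,
      P ∣ ∑ u, ∑ v, Polynomial.C (σ u v) * (B u i ab.1 * B v j ab.2) := by
    intro ab hab i j
    rw [← hΓ] at hab
    exact hσ (⟨ab, hab⟩, i, j)
  refine ⟨m, q, fun i => ∑ v, σ i v • q v, hq1, ⟨u0, ?_⟩, hq2, ?_, ?_⟩
  · intro h0
    exact hσ0 (Fintype.linearIndependent_iff.1 hq1 (fun v => σ u0 v) h0 v0)
  · intro i
    refine IsIntegral.sum _ fun v _ => ?_
    rw [Algebra.smul_def]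
    refine IsIntegral.mul ?_ (hq2 v)
    exact isIntegral_algebraMap (R := Algebra.adjoin k {ξ}) (A := L₁)
      (x := algebraMap k (Algebra.adjoin k {ξ}) (σ i v))
  · intro E Ω _ _ _ _ _ _ l m' ht hlink
    have hS : ∑ i, l (q i) * m' (∑ v, σ i v • q v) =
        ∑ u, ∑ v, algebraMap k Ω (σ u v) * l (q u) * m' (q v) := by
      refine Finset.sum_congr rfl fun u _ => ?_
      rw [map_sum, Finset.mul_sum]
      refine Finset.sum_congr rfl fun v _ => ?_
      rw [map_smul, Algebra.smul_def]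
      ring
    rw [hS]
    have hOv : ∀ V : ValuationSubring Ω, Ov E V → Ov k V := by
      intro V hV a
      rw [IsScalarTower.algebraMap_apply k E Ω]
      exact hV _
    have hinf : ∀ V : ValuationSubring Ω, Ov E V → l ξ ∉ V →
        ∑ u, ∑ v, algebraMap k Ω (σ u v) * l (q u) * m' (q v) ∈ V.nonunits := by
      intro V hV hl
      obtain ⟨g1, g2⟩ := hlink V hV
      obtain ⟨g3, g4, g5⟩ := g2 hl
      exact sz_inf hO hP h hE hσ' l m' (hOv V hV) hl (fun h5 => hl (g1.2 h5)) g3 g4 g5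
    refine all_zero ht (fun V hV => ?_) hinf
    by_cases hl : l ξ ∈ V
    · have hm := (hlink V hV).1.1 hl
      refine sum_mem fun u _ => sum_mem fun v _ => ?_
      exact V.mul_mem _ _ (V.mul_mem _ _ (hOv V hV _) (sz_val l (hOv V hV) hl (hq2 u)))
        (sz_val m' (hOv V hV) hm (hq2 v))
    · exact ValuationSubring.nonunits_subset (hinf V hV hl)

end Pool.Agent.H12.GN
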