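import Pool.Agent.H8.OA.Ld
import Pool.Agent.H82.NS.Def
import Pool.Agent.H12.ON.Gal

/-! # [H12 GN TNS] `Ω ⊗ L₁` embeds into a field

`b` a `k`-basis of `L₁` (`Module.Basis.ofVectorSpace`); `t = ∑_i ω_i ⊗ b_i`, a finite sum (`TensorProduct.eq_repr_basis_right` or `equivFinsuppOfBasisRight`). If its image `∑ ω_i j(b_i)` is zero: `ld` (H8/OA/Ld.lean) with `E := L₁` mapped to `M` by `j` (a local `Algebra L₁ M` instance from `j.toRingHom.toAlgebra`),
`F := Ω`, `x := l ξ`, `c := b` on the support, `w := ω`: all `ω_i = 0`, `t = 0`. (`RelCl k L₁` is `hcl`.) The condition `Transcendental L₁ (algebraMap Ω M (l ξ))`: otherwise `l ξ` is algebraic over `j(L₁)`, so over `k(j ξ)` (`L₁` is algebraic over `k(ξ)`, `hK`); `l ξ` is transcendental over `k` (`hK.tr`, `l` injective), so by exchange `j ξ` is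
algebraic over `k(l ξ) ⊆ Ω` (compare `alg_swap` in ON/Gal.lean and `ff_of_tr` in H82/NS/PlA.lean): contradiction to `hj`. -/

namespace Pool.Agent.H12.GN

open Pool.Agent.H8.OA Pool.Agent.H82.NS IntermediateField TensorProduct

private theorem tns_tr {k L₁ Ω M : Type} [Field k] [Field L₁] [Field Ω] [Field M] [Algebra k L₁]
    [Algebra k Ω] [Algebra k M] [Algebra Ω M] [IsScalarTower k Ω M] [Algebra L₁ M]
    [IsScalarTower k L₁ M] {ξ : L₁} (hK : FF k ξ) (l : L₁ →ₐ[k] Ω)
    (hj : Transcendental Ω (algebraMap L₁ M ξ)) :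
    Transcendental L₁ (algebraMap Ω M (l ξ)) := by
  intro halg
  obtain ⟨X, hX⟩ : ∃ X : M, X = algebraMap Ω M (l ξ) := ⟨_, rfl⟩
  obtain ⟨Y, hY⟩ : ∃ Y : M, Y = algebraMap L₁ M ξ := ⟨_, rfl⟩
  rw [← hX] at halg
  rw [← hY] at hj
  have hXt : Transcendental k X := by
    intro h
    rw [hX] at h
    have h1 := (isAlgebraic_algebraMap_iff (algebraMap Ω M).injective).1 h
    exact hK.tr ((isAlgebraic_algHom_iff l l.toRingHom.injective).1 h1)
  have hYt : Transcendental k Y := fun h => hj (h.tower_top Ω)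
  have hfin := hK.fin
  have h1 : Algebra.IsAlgebraic k⟮ξ⟯ L₁ := Algebra.IsAlgebraic.of_finite _ _
  have h2 : Algebra.IsAlgebraic (Algebra.adjoin k {ξ}) L₁ := isAlgebraic_adjoin_iff_top.1 h1
  have h3 : IsAlgebraic (Algebra.adjoin k {ξ}) X := halg.restrictScalars _
  -- to the subalgebra generated by `Y`
  have h4 : IsAlgebraic (Algebra.adjoin k {Y}) X := by
    have hmem : ∀ a : Algebra.adjoin k {ξ}, algebraMap L₁ M (a : L₁) ∈ Algebra.adjoin k {Y} := by
      rintro ⟨a, ha⟩
      rw [Algebra.adjoin_singleton_eq_range_aeval] at ha ⊢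
      obtain ⟨p, rfl⟩ := ha
      refine ⟨p, ?_⟩
      rw [hY]
      exact Polynomial.aeval_algebraMap_apply M ξ p
    obtain ⟨f, hf⟩ : ∃ f : Algebra.adjoin k {ξ} →+* Algebra.adjoin k {Y},
        ∀ a, ((f a : Algebra.adjoin k {Y}) : M) = algebraMap L₁ M (a : L₁) :=
      ⟨((algebraMap L₁ M).comp (Algebra.adjoin k {ξ}).subtype).codRestrict
        (Algebra.adjoin k {Y}).toSubring hmem, fun a => rfl⟩
    refine h3.ringHom_of_comp_eq f (RingHom.id M) ?_ ?_
    · intro a b hab
      have h5 := congrArg Subtype.val hab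
      rw [hf, hf] at h5
      exact Subtype.ext ((algebraMap L₁ M).injective h5)
    · ext a
      exact hf a
  have h5 : IsAlgebraic (Algebra.adjoin k {X}) Y := .adjoin_singleton hYt hXt h4
  -- to `Ω`
  apply hj
  have hmem : ∀ a ∈ Algebra.adjoin k {X}, ∃ w : Ω, algebraMap Ω M w = a := by
    intro a ha
    rw [Algebra.adjoin_singleton_eq_range_aeval] at ha
    obtain ⟨p, rfl⟩ := ha
    refine ⟨Polynomial.aeval (l ξ) p, ?_⟩
    rw [hX]
    exact (Polynomial.aeval_algebraMap_apply M (l ξ) p).symm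
  obtain ⟨p, hp0, hp⟩ := h5
  choose w hw using fun n => hmem (p.coeff n) (p.coeff n).2
  refine ⟨∑ n ∈ p.support, Polynomial.monomial n (w n), ?_, ?_⟩
  · intro h6
    have h7 : (∑ n ∈ p.support, Polynomial.monomial n (w n)).coeff p.natDegree = w p.natDegree := by
      rw [Polynomial.finsetSum_coeff, Finset.sum_eq_single p.natDegree]
      · rw [Polynomial.coeff_monomial, if_pos rfl]
      · intro n _ hn
        rw [Polynomial.coeff_monomial, if_neg hn]
      · intro hn
        exact absurd (Polynomial.natDegree_mem_support_of_nonzero hp0) hn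
    rw [h6, Polynomial.coeff_zero] at h7
    have h8 := hw p.natDegree
    rw [← h7, map_zero] at h8
    have h9 : p.coeff p.natDegree = 0 := Subtype.ext h8.symm
    exact hp0 (Polynomial.leadingCoeff_eq_zero.1 h9)
  · rw [map_sum]
    have h6 : Polynomial.aeval Y p = ∑ n ∈ p.support, ((p.coeff n : Algebra.adjoin k {X}) : M) * Y ^ n := by
      rw [Polynomial.aeval_def, Polynomial.eval₂_eq_sum, Polynomial.sum_def]
      rfl
    rw [← hp, h6]
    refine Finset.sum_congr rfl fun n _ => ?_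
    rw [Polynomial.aeval_monomial, hw]

theorem tns {k L₁ Ω M : Type} [Field k] [CharZero k] [Field L₁] [Field Ω] [Field M] [Algebra k L₁]
    [Algebra k Ω] [Algebra k M] [Algebra Ω M] [IsScalarTower k Ω M] (hcl : RelCl k L₁) {ξ : L₁}
    (hK : FF k ξ) (l : L₁ →ₐ[k] Ω) (hΩ : Algebra.IsAlgebraic k⟮l ξ⟯ Ω) (j : L₁ →ₐ[k] M)
    (hj : Transcendental Ω (j ξ)) :
    Function.Injective (Algebra.TensorProduct.productMap (IsScalarTower.toAlgHom k Ω M) j) := by
  rw [injective_iff_map_eq_zero]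
  intro t ht
  let _ : Algebra L₁ M := j.toRingHom.toAlgebra
  have hjm : ∀ a : L₁, algebraMap L₁ M a = j a := fun _ => rfl
  have hST : IsScalarTower k L₁ M := IsScalarTower.of_algebraMap_eq fun c => by
    rw [hjm, j.commutes]
  have htr : Transcendental L₁ (algebraMap Ω M (l ξ)) := tns_tr hK l (by rw [hjm]; exact hj)
  obtain ⟨b, hb⟩ : ∃ b : Module.Basis (Module.Basis.ofVectorSpaceIndex k L₁) k L₁,
    b = Module.Basis.ofVectorSpace k L₁ := ⟨_, rfl⟩
  obtain ⟨ω, rfl⟩ := TensorProduct.eq_repr_basis_right b t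
  have h0 : ∑ i ∈ ω.support, algebraMap L₁ M (b i) * algebraMap Ω M (ω i) = 0 := by
    rw [← ht, Finsupp.sum, map_sum]
    refine Finset.sum_congr rfl fun i _ => ?_
    rw [Algebra.TensorProduct.productMap_apply_tmul, hjm, mul_comm]
    rfl
  have h1 : ∑ i : ω.support, algebraMap L₁ M (b i) * algebraMap Ω M (ω i) = 0 := by
    rw [Finset.sum_coe_sort ω.support fun i => algebraMap L₁ M (b i) * algebraMap Ω M (ω i)]
    exact h0
  have h2 := ld hcl htr hΩ (c := fun i : ω.support => b i)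
    (b.linearIndependent.comp _ Subtype.val_injective) (w := fun i : ω.support => ω i) h1
  rw [Finsupp.sum]
  refine Finset.sum_eq_zero fun i hi => ?_
  rw [h2 ⟨i, hi⟩, TensorProduct.zero_tmul]

end Pool.Agent.H12.GN
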